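import Pool.Agent.HP25.TW.E
import Pool.Agent.N18.KM.Base
import Pool.Agent.N676.OR.Pro

/-!
# Countably many pronull sets: four regimes (helper25)
-/

set_option autoImplicit false
set_option linter.unusedSectionVars false
set_option linter.unusedVariables false

namespace Pool.Agent.HP25.TW

open MeasureTheory ProbabilityTheory Finset Filter Topology
open Pool.Agent.N24.RW (ProNull t_CRIT)
open Pool.Agent.N24.KM (Rarely)
open Pool.Agent.N676.OR (Hit Big lin linq linq_surj exac exac_card)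

variable {ι : Type} [Fintype ι]

lemma shift {B : Set (ι → ℤ)} (hB : ProNull B) (v : ι → ℤ) : ProNull {c : ι → ℤ | (fun i => c i + v i) ∈ B} := by
  intro M hM ε hε
  obtain ⟨q, hq, hqM, h⟩ := hB M hM ε hε
  refine ⟨q, hq, hqM, le_trans ?_ h⟩
  have : NeZero q := ⟨hq.ne'⟩
  refine Nat.cast_le.2 ?_
  have h1 : (fun (c : ι → ℤ) (i : ι) => (c i : ZMod q)) '' {c : ι → ℤ | (fun i => c i + v i) ∈ B} ⊆
      (fun (x : ι → ZMod q) (i : ι) => x i - (v i : ZMod q)) '' ((fun (c : ι → ℤ) (i : ι) => (c i : ZMod q)) '' B) := by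
    rintro _ ⟨c, hc, rfl⟩
    refine ⟨_, ⟨_, hc, rfl⟩, ?_⟩
    funext i
    simp
  exact (Set.ncard_le_ncard h1 (Set.toFinite _)).trans (Set.ncard_image_le (Set.toFinite _))

/-- primes of a big set which divide an affine form exactly once -/
theorem pro_hit {P : Set ℕ} (hP : Big P) {lam : ι → ℤ} (hlam : lam ≠ 0) (v : ℤ) :
    ProNull {c : ι → ℤ | ¬ Hit P (lin lam c + v)} := by
  classical
  obtain ⟨l, hl⟩ : ∃ l, lam l ≠ 0 := by
    by_contra h
    push Not at h
    exact hlam (funext h)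
  set w : ℕ → ℝ := fun p => if p ∈ P then 1 / (2 * (p : ℝ)) else 0 with hw
  have hns : ¬ Summable (fun p : ℕ => if p.Prime then w p else 0) := by
    intro hsum
    have h1 := hsum.mul_left 2
    have h2 : Set.indicator {p : ℕ | p.Prime ∧ p ∈ P} (fun p : ℕ => 1 / (p : ℝ)) =
        fun p : ℕ => 2 * (if p.Prime then w p else 0) := by
      funext p
      by_cases h : p.Prime
      · by_cases h' : p ∈ P
        · have h3 : (p : ℝ) ≠ 0 := by exact_mod_cast h.ne_zero
          rw [Set.indicator_of_mem (show p ∈ {p : ℕ | p.Prime ∧ p ∈ P} from ⟨h, h'⟩), if_pos h, hw]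
          simp only [h', if_true]
          field_simp
        · rw [Set.indicator_of_notMem (show p ∉ {p : ℕ | p.Prime ∧ p ∈ P} from fun h3 => h' h3.2),
            if_pos h, hw]
          simp [h']
      · rw [Set.indicator_of_notMem (show p ∉ {p : ℕ | p.Prime ∧ p ∈ P} from fun h3 => h h3.1),
          if_neg h, mul_zero]
    apply hP
    rw [h2]
    exact h1
  have hexac : ∀ p : ℕ, p.Prime → ((fun y : ZMod (p ^ 2) => y + (v : ZMod (p ^ 2))) ⁻¹' (exac p)).ncard = (exac p).ncard := by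
    intro p hp
    have e1 : (fun y : ZMod (p ^ 2) => y + (v : ZMod (p ^ 2))) ⁻¹' (exac p) =
        (fun y : ZMod (p ^ 2) => y - (v : ZMod (p ^ 2))) '' (exac p) := by
      ext y
      constructor
      · intro hy
        exact ⟨_, hy, by ring⟩
      · rintro ⟨z, hz, rfl⟩
        show z - _ + _ ∈ exac p
        rw [sub_add_cancel]
        exact hz
    rw [e1]
    exact Set.ncard_image_of_injective _ (sub_left_injective)
  have h := t_CRIT ι (fun p => p ^ 2) (fun p hp => Nat.pos_of_ne_zero (by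
      have := hp.pos
      positivity)) (fun p p' hp hp' hne =>
      Nat.Coprime.pow 2 2 ((Nat.coprime_primes hp hp').mpr hne))
    (fun p => if p ∈ P then (linq lam (p ^ 2)) ⁻¹' ((fun y : ZMod (p ^ 2) => y + (v : ZMod (p ^ 2))) ⁻¹' (exac p)) else ∅) (lam l).natAbs w
    (fun p => by
      simp only [hw]
      split_ifs <;> positivity) hns (fun p hp hlp => by
      by_cases hpP : p ∈ P
      · simp only [hw, hpP, if_true]
        have : NeZero (p ^ 2) := ⟨by have := hp.pos; positivity⟩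
        have hun : IsUnit ((lam l : ℤ) : ZMod (p ^ 2)) := by
          rw [ZMod.coe_int_isUnit_iff_isCoprime, Nat.cast_pow]
          apply IsCoprime.pow_left
          rw [Int.isCoprime_iff_gcd_eq_one]
          have h7 : Nat.Coprime p (lam l).natAbs := by
            rw [Nat.Prime.coprime_iff_not_dvd hp]
            intro h8
            have := Nat.le_of_dvd (Int.natAbs_pos.2 hl) h8
            omega
          exact h7
        have h1 := Pool.Agent.N24.RW.Clo.ncard_preimage (linq lam (p ^ 2)) (linq_surj hun)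
          ((fun y : ZMod (p ^ 2) => y + (v : ZMod (p ^ 2))) ⁻¹' (exac p))
        rw [Pool.Agent.N24.RW.Clo.card_pi, Nat.card_eq_fintype_card, ZMod.card, hexac p hp] at h1
        have h2 := exac_card hp.two_le
        have hp0 : (0 : ℝ) < p := by exact_mod_cast hp.pos
        have h3 : ((((linq lam (p ^ 2)) ⁻¹' ((fun y : ZMod (p ^ 2) => y + (v : ZMod (p ^ 2))) ⁻¹' (exac p))).ncard : ℕ) : ℝ) * ((p : ℝ) ^ 2) =
            ((exac p).ncard : ℝ) * (((p ^ 2 : ℕ) : ℝ) ^ Fintype.card ι) := by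
          exact_mod_cast h1
        have h4 : (0 : ℝ) ≤ (((p ^ 2 : ℕ) : ℝ) ^ Fintype.card ι) := by positivity
        have h5 := mul_le_mul_of_nonneg_right h2 h4
        rw [← h3] at h5
        have h6 : 1 / (2 * (p : ℝ)) * (((p ^ 2 : ℕ) : ℝ) ^ Fintype.card ι) * (p : ℝ) ^ 2 ≤
            ((((linq lam (p ^ 2)) ⁻¹' ((fun y : ZMod (p ^ 2) => y + (v : ZMod (p ^ 2))) ⁻¹' (exac p))).ncard : ℕ) : ℝ) * ((p : ℝ) ^ 2) := by
          refine le_trans (le_of_eq ?_) h5
          field_simp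
        exact le_of_mul_le_mul_right h6 (by positivity)
      · simp [hw, hpP])
  refine Pool.Agent.N24.RW.Clo.mono (fun c hc => ?_) h
  intro p hp hlp hmem
  apply hc
  by_cases hpP : p ∈ P
  · rw [if_pos hpP] at hmem
    have h1 : linq lam (p ^ 2) (fun i => (c i : ZMod (p ^ 2))) = ((lin lam c : ℤ) : ZMod (p ^ 2)) := by
      change ∑ i, (lam i : ZMod (p ^ 2)) * (c i : ZMod (p ^ 2)) = _
      unfold lin
      push_cast
      rfl
    have h2 : ((lin lam c + v : ℤ) : ZMod (p ^ 2)) ∈ exac p := by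
      have h3 : linq lam (p ^ 2) (fun i => (c i : ZMod (p ^ 2))) + (v : ZMod (p ^ 2)) ∈ exac p := hmem
      rw [h1] at h3
      push_cast
      exact h3
    exact ⟨p, hpP, hp, (Pool.Agent.N24.RW.one_dvd p hp.one_lt.le _).1 h2.1, (Pool.Agent.N24.RW.one_val_ne p hp.one_lt.le _).1 h2.2⟩
  · rw [if_neg hpP] at hmem
    exact absurd hmem (Set.notMem_empty _)

/-- finitely many sets of primes -/
theorem pro_hits {PP : Set (Set ℕ)} (hf : PP.Finite) (hP : ∀ P ∈ PP, Big P) {lam : ι → ℤ}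
    (hlam : lam ≠ 0) (v : ℤ) : ProNull {c : ι → ℤ | ¬ ∀ P ∈ PP, Hit P (lin lam c + v)} := by
  classical
  obtain ⟨l, hl⟩ : ∃ l, lam l ≠ 0 := by
    by_contra h
    push Not at h
    exact hlam (funext h)
  have : Nonempty ι := ⟨l⟩
  induction PP, hf using Set.Finite.induction_on with
  | empty =>
    refine Pool.Agent.N24.RW.Clo.mono (B := ∅) ?_ (Pool.Agent.N24.RW.Clo.finite Set.finite_empty)
    intro c hc
    exact absurd (fun P hP => absurd hP (Set.notMem_empty _)) hc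
  | @insert P QQ _ _ ih =>
    refine Pool.Agent.N24.RW.Clo.mono ?_ (Pool.Agent.N24.RW.Clo.union (pro_hit (hP P (Set.mem_insert _ _)) hlam v)
      (ih fun Q hQ => hP Q (Set.mem_insert_of_mem _ hQ)))
    intro c hc
    by_cases h1 : Hit P (lin lam c + v)
    · right
      intro h2
      apply hc
      intro Q hQ
      rcases Set.mem_insert_iff.1 hQ with rfl | hQ
      · exact h1
      · exact h2 Q hQ
    · left
      exact h1

/-- `E` has density zero, and apart from finitely many indices `c` is in `B x` only in `E`, for all `x` -/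
def OneSet {κ : Type} (c : ℕ → ι → ℤ) (B : κ → Set (ι → ℤ)) : Prop :=
  ∃ E : Set ℕ, Tendsto (fun N : ℕ => (({n : ℕ | n < N ∧ n ∈ E}.ncard : ℕ) : ℝ) / (N : ℝ)) atTop (𝓝 0) ∧
    ∀ x, {n : ℕ | n ∉ E ∧ c n ∈ B x}.Finite

/-- **uniform version for finitely many sets** -/
theorem uniform {κ : Type} (B : κ → Set (ι → ℤ)) (hB : ∀ x, ProNull (B x)) {F : Set κ} (hF : F.Finite) (D : ℕ)
    {η : ℝ} (hη : 0 < η) {ε : ℝ} (hε : 0 < ε) :
    ∃ K₀ : ℕ, ∀ K ≥ K₀, ∀ (Ω : Type) [MeasurableSpace Ω] (P : Measure Ω) [IsProbabilityMeasure P] (d : ι → ℕ → Ω → ℤ),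
      Free P D η d → ∀ (γ : ι → ℕ → ℤ), (∀ i, ∀ j < K, Smooth D (γ i j)) → ∀ u : ι → ℤ,
      P.real {ω | ∃ x ∈ F, sm u γ K d ω ∈ B x} ≤ ε := by
  classical
  have hc : (0 : ℝ) < hF.toFinset.card + 1 := by positivity
  choose K₀ hK₀ using fun x => small (hB x) D hη (show 0 < ε / (hF.toFinset.card + 1) by positivity)
  refine ⟨hF.toFinset.sup K₀, fun K hK Ω _ P _ d hd γ hγ u => ?_⟩
  have h1 : {ω | ∃ x ∈ F, sm u γ K d ω ∈ B x} ⊆ ⋃ x ∈ hF.toFinset, {ω | sm u γ K d ω ∈ B x} := by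
    rintro ω ⟨x, hx, hω⟩
    rw [Set.mem_iUnion₂]
    exact ⟨x, hF.mem_toFinset.2 hx, hω⟩
  refine (measureReal_mono h1 (measure_ne_top P _)).trans ((measureReal_biUnion_finset_le _ _).trans ?_)
  have h2 : ∀ x ∈ hF.toFinset, P.real {ω | sm u γ K d ω ∈ B x} ≤ ε / (hF.toFinset.card + 1) :=
    fun x hx => hK₀ x K ((le_sup hx).trans hK) Ω P d hd γ hγ u
  refine (sum_le_sum h2).trans ?_
  rw [sum_const, nsmul_eq_mul, mul_div_assoc', div_le_iff₀ hc]
  nlinarith

theorem Equi.oneSet {κ : Type} [Countable κ] {B : κ → Set (ι → ℤ)} (hB : ∀ x, ProNull (B x)) {M : ℕ} (hM : 0 < M)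
    {c : ℕ → ι → ℤ} (h : Equi M c) : OneSet c B :=
  Pool.Agent.N18.KM.one_set _ _ fun x => h.rarely hM (hB x)

/-- from exact equidistribution modulo the `q` prime to `M` -/
theorem equi_tendsto {M : ℕ} (c : ℕ → ι → ℤ) (hc : ∀ q : ℕ, 0 < q → q.Coprime M → ∀ r : ι → ZMod q,
    Tendsto (fun N : ℕ => (({n : ℕ | n < N ∧ (fun i => (c n i : ZMod q)) = r}.ncard : ℕ) : ℝ) / (N : ℝ)) atTop
      (𝓝 (((q : ℝ) ^ Fintype.card ι)⁻¹))) : Equi M c := by
  refine equi_cls c fun q hq hqM r ε hε => ?_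
  filter_upwards [(hc q hq hqM r).eventually_le_const (show ((q : ℝ) ^ Fintype.card ι)⁻¹ < ((q : ℝ) ^ Fintype.card ι)⁻¹ + ε by linarith),
    eventually_gt_atTop 0] with N hN hN0
  have hNr : (0 : ℝ) < N := by exact_mod_cast hN0
  rw [div_le_iff₀ hNr] at hN
  have h1 : {n : ℕ | n < N ∧ ∀ i, ((c n i : ℤ) : ZMod q) = r i} = {n : ℕ | n < N ∧ (fun i => (c n i : ZMod q)) = r} := by
    ext n
    constructor
    · rintro ⟨h1, h2⟩
      exact ⟨h1, funext h2⟩
    · rintro ⟨h1, h2⟩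
      exact ⟨h1, fun i => congrFun h2 i⟩
  rw [h1]
  exact hN

end Pool.Agent.HP25.TW
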