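import Mathlib

/-!
# Random sums and pronull sets: finite Fourier analysis (helper25)
-/

set_option autoImplicit false

namespace Pool.Agent.HP25.TW

open MeasureTheory ProbabilityTheory Finset

section chr

variable {ι : Type} [Fintype ι]

/-- the character of `(ℤ / q) ^ ι` with the frequency `h` -/
noncomputable def chr (q : ℕ) [NeZero q] (h x : ι → ZMod q) : ℂ := ∏ i, ZMod.stdAddChar (h i * x i)

lemma norm_std {q : ℕ} [NeZero q] (x : ZMod q) : ‖(ZMod.stdAddChar x : ℂ)‖ = 1 := by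
  rw [ZMod.stdAddChar_apply]
  exact Circle.norm_coe _

lemma norm_chr {q : ℕ} [NeZero q] (h x : ι → ZMod q) : ‖chr q h x‖ = 1 := by
  unfold chr
  rw [norm_prod]
  exact prod_eq_one fun i _ => norm_std _

lemma chr_add {q : ℕ} [NeZero q] (h x y : ι → ZMod q) : chr q h (x + y) = chr q h x * chr q h y := by
  unfold chr
  rw [← prod_mul_distrib]
  refine prod_congr rfl fun i _ => ?_
  rw [Pi.add_apply, mul_add, AddChar.map_add_eq_mul]

lemma sum_chr [DecidableEq ι] (q : ℕ) [NeZero q] (x : ι → ZMod q) :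
    ∑ h : ι → ZMod q, chr q h x = if x = 0 then (q : ℂ) ^ Fintype.card ι else 0 := by
  classical
  unfold chr
  have h1 := (Finset.prod_univ_sum (fun _ : ι => (univ : Finset (ZMod q)))
    (fun i (a : ZMod q) => (ZMod.stdAddChar (a * x i) : ℂ)))
  rw [Fintype.piFinset_univ] at h1
  rw [← h1]
  have h2 : ∀ i, ∑ a : ZMod q, (ZMod.stdAddChar (a * x i) : ℂ) = if x i = 0 then (q : ℂ) else 0 := by
    intro i
    rw [AddChar.sum_mulShift (x i) (ZMod.isPrimitive_stdAddChar q), ZMod.card]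
    split_ifs <;> simp
  simp only [h2]
  by_cases hx : x = 0
  · subst hx
    simp
  · rw [if_neg hx]
    obtain ⟨i, hi⟩ : ∃ i, x i ≠ 0 := by
      by_contra hc
      push Not at hc
      exact hx (funext hc)
    exact prod_eq_zero (mem_univ i) (if_neg hi)

variable {Ω : Type} [MeasurableSpace Ω]

/-- the probability of a set of residue classes, from the exponential sums -/
theorem prob_le (q : ℕ) [NeZero q] (P : Measure Ω) [IsFiniteMeasure P] (c : Ω → ι → ZMod q)
    (hc : Measurable c) (S : Set (ι → ZMod q)) (δ : ℝ) (hδ : 0 ≤ δ)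
    (h0 : ∀ h : ι → ZMod q, h ≠ 0 → ‖∫ ω, chr q h (c ω) ∂P‖ ≤ δ) :
    P.real {ω | c ω ∈ S} ≤ (S.ncard : ℝ) * ((q : ℝ) ^ Fintype.card ι)⁻¹ * (P.real Set.univ + (q : ℝ) ^ Fintype.card ι * δ) := by
  classical
  have hq0 : (0 : ℝ) < q := by exact_mod_cast NeZero.pos q
  have hmeas : ∀ (f : (ι → ZMod q) → ℂ), Integrable (fun ω => f (c ω)) P := by
    intro f
    refine Integrable.of_bound ((measurable_of_finite f).comp hc).aestronglyMeasurable
      (∑ r : ι → ZMod q, ‖f r‖) (ae_of_all _ fun ω => ?_)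
    exact single_le_sum (f := fun r => ‖f r‖) (fun r _ => norm_nonneg _) (mem_univ (c ω))
  have hms : ∀ r : ι → ZMod q, MeasurableSet {ω | c ω = r} := fun r => hc (measurableSet_singleton r)
  -- one class
  have h1 : ∀ r : ι → ZMod q, P.real {ω | c ω = r} ≤
      ((q : ℝ) ^ Fintype.card ι)⁻¹ * (P.real Set.univ + (q : ℝ) ^ Fintype.card ι * δ) := by
    intro r
    have e1 : (q : ℂ) ^ Fintype.card ι * (P.real {ω | c ω = r} : ℂ) = ∑ h : ι → ZMod q, chr q h (-r) * ∫ ω, chr q h (c ω) ∂P := by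
      have e2 : ∀ ω, ({ω | c ω = r}.indicator (fun _ => (q : ℂ) ^ Fintype.card ι)) ω = ∑ h : ι → ZMod q, chr q h (-r) * chr q h (c ω) := by
        intro ω
        have e3 := sum_chr q (-r + c ω)
        simp only [chr_add] at e3
        rw [e3, Set.indicator_apply]
        refine if_congr ?_ rfl rfl
        rw [Set.mem_ofPred_eq, neg_add_eq_zero, eq_comm]
      have e4 : ∫ ω, ({ω | c ω = r}.indicator (fun _ => (q : ℂ) ^ Fintype.card ι)) ω ∂P = P.real {ω | c ω = r} • (q : ℂ) ^ Fintype.card ι :=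
        integral_indicator_const _ (hms r)
      rw [integral_congr_ae (ae_of_all _ e2), integral_finsetSum _ (fun h _ => (hmeas (fun x => chr q h x)).const_mul _)] at e4
      rw [mul_comm, ← Complex.real_smul, ← e4]
      exact sum_congr rfl fun h _ => integral_const_mul _ _
    have e5 : ‖(q : ℂ) ^ Fintype.card ι * (P.real {ω | c ω = r} : ℂ)‖ = (q : ℝ) ^ Fintype.card ι * P.real {ω | c ω = r} := by
      rw [norm_mul, norm_pow, Complex.norm_natCast, Complex.norm_real, Real.norm_of_nonneg measureReal_nonneg]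
    have e6 : ‖∑ h : ι → ZMod q, chr q h (-r) * ∫ ω, chr q h (c ω) ∂P‖ ≤ P.real Set.univ + (q : ℝ) ^ Fintype.card ι * δ := by
      rw [← add_sum_erase _ _ (mem_univ (0 : ι → ZMod q))]
      refine (norm_add_le _ _).trans (add_le_add ?_ ?_)
      · rw [norm_mul, norm_chr, one_mul]
        refine (norm_integral_le_of_norm_le_const (C := 1) (ae_of_all _ fun ω => (norm_chr _ _).le)).trans ?_
        rw [one_mul]
      · refine (norm_sum_le _ _).trans ?_
        have e7 : ∀ h ∈ univ.erase (0 : ι → ZMod q), ‖chr q h (-r) * ∫ ω, chr q h (c ω) ∂P‖ ≤ δ := by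
          intro h hh
          rw [norm_mul, norm_chr, one_mul]
          exact h0 h (ne_of_mem_erase hh)
        refine (sum_le_sum e7).trans ?_
        rw [sum_const, nsmul_eq_mul]
        have e8 : ((univ.erase (0 : ι → ZMod q)).card : ℝ) ≤ (q : ℝ) ^ Fintype.card ι := by
          have e9 := card_le_card (erase_subset (0 : ι → ZMod q) univ)
          rw [Finset.card_univ, Fintype.card_fun, ZMod.card] at e9
          exact_mod_cast e9
        exact mul_le_mul_of_nonneg_right e8 hδ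
    rw [← e1, e5] at e6
    have hp : 0 < (q : ℝ) ^ Fintype.card ι := by positivity
    rw [inv_mul_eq_div, le_div_iff₀ hp]
    linarith
  have hSf : S.Finite := Set.toFinite S
  have h2 : {ω | c ω ∈ S} = ⋃ r ∈ hSf.toFinset, {ω | c ω = r} := by
    ext ω
    simp only [Set.mem_iUnion, Set.Finite.mem_toFinset, exists_prop]
    constructor
    · intro h
      exact ⟨c ω, h, rfl⟩
    · rintro ⟨r, hr, hr'⟩
      have : c ω = r := hr'
      show c ω ∈ S
      rw [this]
      exact hr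
  rw [h2]
  refine (measureReal_biUnion_finset_le _ _).trans ((sum_le_sum fun r _ => h1 r).trans ?_)
  rw [sum_const, nsmul_eq_mul, ← Set.ncard_eq_toFinset_card S hSf, mul_assoc]

end chr

section factor

/-- the nontrivial `q`-th roots of unity have real part at most `1 - κ` -/
lemma gap (q : ℕ) [NeZero q] : ∃ κ : ℝ, 0 < κ ∧ κ ≤ 1 ∧ ∀ s : ZMod q, s ≠ 0 → κ ≤ 1 - (ZMod.stdAddChar s : ℂ).re := by
  classical
  have h1 : ∀ s : ZMod q, s ≠ 0 → 0 < 1 - (ZMod.stdAddChar s : ℂ).re := by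
    intro s hs
    have h2 : (ZMod.stdAddChar s : ℂ) ≠ 1 := by
      intro h3
      rw [← AddChar.map_zero_eq_one (ZMod.stdAddChar (N := q))] at h3
      exact hs (ZMod.injective_stdAddChar h3)
    have h4 := norm_std s
    have h5 : (ZMod.stdAddChar s : ℂ).re ≤ 1 := by
      rw [← h4]
      exact Complex.re_le_norm _
    rcases lt_or_eq_of_le h5 with h6 | h6
    · linarith
    · exfalso
      apply h2
      have h7 : (ZMod.stdAddChar s : ℂ).re ^ 2 + (ZMod.stdAddChar s : ℂ).im ^ 2 = 1 := by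
        have := Complex.sq_norm (ZMod.stdAddChar s : ℂ)
        rw [h4, Complex.normSq_apply] at this
        nlinarith
      rw [h6] at h7
      have h8 : (ZMod.stdAddChar s : ℂ).im = 0 := by
        have : (ZMod.stdAddChar s : ℂ).im ^ 2 = 0 := by linarith
        exact pow_eq_zero_iff (two_ne_zero) |>.1 this
      exact Complex.ext (by rw [h6, Complex.one_re]) (by rw [h8, Complex.one_im])
  by_cases hne : (univ.filter fun s : ZMod q => s ≠ 0).Nonempty
  · obtain ⟨s₀, hs₀, hmin⟩ := exists_min_image _ (fun s : ZMod q => 1 - (ZMod.stdAddChar s : ℂ).re) hne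
    refine ⟨min (1 - (ZMod.stdAddChar s₀ : ℂ).re) 1, lt_min (h1 s₀ (mem_filter.1 hs₀).2) one_pos, min_le_right _ _, fun s hs => ?_⟩
    exact (min_le_left _ _).trans (hmin s (mem_filter.2 ⟨mem_univ _, hs⟩))
  · refine ⟨1, one_pos, le_rfl, fun s hs => ?_⟩
    exact absurd ⟨s, mem_filter.2 ⟨mem_univ _, hs⟩⟩ hne

/-- the exponential sum of a distribution which has no large atom -/
lemma factor {q : ℕ} [NeZero q] {κ : ℝ} (hκ0 : 0 < κ)
    (hκ : ∀ s : ZMod q, s ≠ 0 → κ ≤ 1 - (ZMod.stdAddChar s : ℂ).re) {η : ℝ} (A : Finset ℤ) (w : ℤ → ℝ) (hw0 : ∀ a ∈ A, 0 ≤ w a)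
    (hw1 : ∑ a ∈ A, w a = 1) (hwη : ∀ a ∈ A, w a ≤ 1 - η) (t : ZMod q)
    (ht : ∀ a ∈ A, ∀ a' ∈ A, a ≠ a' → t * ((a : ℤ) : ZMod q) - t * ((a' : ℤ) : ZMod q) ≠ 0) :
    ‖∑ a ∈ A, (w a : ℂ) * ZMod.stdAddChar (t * ((a : ℤ) : ZMod q))‖ ^ 2 ≤ 1 - κ * η := by
  classical
  set Z : ℂ := ∑ a ∈ A, (w a : ℂ) * ZMod.stdAddChar (t * ((a : ℤ) : ZMod q)) with hZ
  have h1 : ‖Z‖ ^ 2 = ∑ a ∈ A, ∑ a' ∈ A, w a * w a' * (ZMod.stdAddChar (t * ((a : ℤ) : ZMod q) - t * ((a' : ℤ) : ZMod q)) : ℂ).re := by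
    have h2 : ((‖Z‖ ^ 2 : ℝ) : ℂ) = Z * (starRingEnd ℂ) Z := by
      rw [Complex.mul_conj, Complex.normSq_eq_norm_sq]
    have h3 : Z * (starRingEnd ℂ) Z = ∑ a ∈ A, ∑ a' ∈ A, ((w a * w a' : ℝ) : ℂ) * ZMod.stdAddChar (t * ((a : ℤ) : ZMod q) - t * ((a' : ℤ) : ZMod q)) := by
      rw [hZ, map_sum, sum_mul_sum]
      refine sum_congr rfl fun a _ => sum_congr rfl fun a' _ => ?_
      rw [(starRingEnd ℂ).map_mul, Complex.conj_ofReal, sub_eq_add_neg, AddChar.map_add_eq_mul]
      have h4 : (starRingEnd ℂ) (ZMod.stdAddChar (t * ((a' : ℤ) : ZMod q)) : ℂ) = ZMod.stdAddChar (-(t * ((a' : ℤ) : ZMod q))) := by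
        rw [AddChar.map_neg_eq_inv, ZMod.stdAddChar_apply]
        exact (Circle.coe_inv_eq_conj _).symm.trans (by rw [Circle.coe_inv])
      rw [h4]
      push_cast
      ring
    have h5 := congrArg Complex.re (h2.trans h3)
    rw [Complex.ofReal_re, Complex.re_sum] at h5
    rw [h5]
    refine sum_congr rfl fun a _ => ?_
    rw [Complex.re_sum]
    exact sum_congr rfl fun a' _ => Complex.re_ofReal_mul _ _
  have h6 : ∀ a ∈ A, ∀ a' ∈ A, w a * w a' * (ZMod.stdAddChar (t * ((a : ℤ) : ZMod q) - t * ((a' : ℤ) : ZMod q)) : ℂ).re ≤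
      w a * w a' - κ * (w a * w a') + κ * (if a = a' then w a * w a' else 0) := by
    intro a ha a' ha'
    have h7 : 0 ≤ w a * w a' := mul_nonneg (hw0 a ha) (hw0 a' ha')
    split_ifs with h8
    · subst h8
      rw [sub_self, AddChar.map_zero_eq_one, Complex.one_re]
      nlinarith
    · have h9 := hκ _ (ht a ha a' ha' h8)
      nlinarith
  rw [h1]
  refine (sum_le_sum fun a ha => sum_le_sum fun a' ha' => h6 a ha a' ha').trans ?_
  have h7 : ∑ a ∈ A, ∑ a' ∈ A, (w a * w a' - κ * (w a * w a') + κ * (if a = a' then w a * w a' else 0)) =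
      1 - κ + κ * ∑ a ∈ A, w a * w a := by
    have e0 : ∀ a ∈ A, ∑ a' ∈ A, (w a * w a' - κ * (w a * w a') + κ * (if a = a' then w a * w a' else 0)) =
        (1 - κ) * w a + κ * (w a * w a) := by
      intro a ha
      have e1 : ∑ a' ∈ A, (if a = a' then w a * w a' else 0) = w a * w a := by
        rw [sum_ite_eq A a, if_pos ha]
      have e2 : ∑ a' ∈ A, (w a * w a') = w a := by
        rw [← mul_sum, hw1, mul_one]
      have e3 : ∑ a' ∈ A, κ * (w a * w a') = κ * w a := by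
        rw [← mul_sum, e2]
      have e4 : ∑ a' ∈ A, κ * (if a = a' then w a * w a' else 0) = κ * (w a * w a) := by
        rw [← mul_sum, e1]
      rw [sum_add_distrib, sum_sub_distrib, e2, e3, e4]
      ring
    rw [sum_congr rfl e0, sum_add_distrib, ← mul_sum, ← mul_sum, hw1]
    ring
  rw [h7]
  have h8 : ∑ a ∈ A, w a * w a ≤ 1 - η := by
    have h9 : ∑ a ∈ A, w a * w a ≤ ∑ a ∈ A, (1 - η) * w a :=
      sum_le_sum fun a ha => mul_le_mul_of_nonneg_right (hwη a ha) (hw0 a ha)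
    rw [← mul_sum, hw1, mul_one] at h9
    exact h9
  nlinarith

end factor

end Pool.Agent.HP25.TW
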