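import Pool.Agent.HP25.TW.A
import Pool.Agent.N24.KM.All

/-!
# Random sums and pronull sets (helper25)
-/

set_option autoImplicit false
set_option linter.unusedSectionVars false
set_option linter.unusedVariables false

namespace Pool.Agent.HP25.TW

open MeasureTheory ProbabilityTheory Finset Filter Topology
open Pool.Agent.N24.RW (ProNull)
open Pool.Agent.N24.KM (Rarely)

variable {ι : Type} {Ω : Type} [MeasurableSpace Ω]

/-- independent random integers of absolute value at most `D`, without atoms of mass `> 1 - η` -/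
structure Free (P : Measure Ω) (D : ℕ) (η : ℝ) (d : ι → ℕ → Ω → ℤ) : Prop where
  meas : ∀ i j, Measurable (d i j)
  indep : iIndepFun (fun ij : ι × ℕ => d ij.1 ij.2) P
  bdd : ∀ i j ω, |d i j ω| ≤ D
  atom : ∀ i j a, P.real {ω | d i j ω = a} ≤ 1 - η

/-- `γ ≠ 0` has no prime factors larger than `D` -/
def Smooth (D : ℕ) (γ : ℤ) : Prop := γ ≠ 0 ∧ ∀ p : ℕ, p.Prime → (p : ℤ) ∣ γ → p ≤ D

lemma unit_of_dvd {q n : ℕ} (hq : q.Coprime n) {a : ℤ} (ha : a ≠ 0) (h : ∀ p : ℕ, p.Prime → (p : ℤ) ∣ a → p ∣ n) :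
    IsUnit (a : ZMod q) := by
  rw [ZMod.coe_int_isUnit_iff_isCoprime, Int.isCoprime_iff_gcd_eq_one]
  by_contra hne
  obtain ⟨p, hp, hpd⟩ := Nat.exists_prime_and_dvd hne
  have h1 : p ∣ Int.gcd (q : ℤ) a := hpd
  have h2 : (p : ℤ) ∣ (q : ℤ) := (Int.natCast_dvd_natCast.2 h1).trans (Int.gcd_dvd_left _ _)
  have h3 : (p : ℤ) ∣ a := (Int.natCast_dvd_natCast.2 h1).trans (Int.gcd_dvd_right _ _)
  have h4 : p ∣ q := Int.natCast_dvd_natCast.1 h2
  have h5 := Nat.dvd_gcd h4 (h p hp h3)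
  rw [Nat.Coprime] at hq
  rw [hq] at h5
  exact hp.one_lt.ne' (Nat.dvd_one.1 h5)

lemma Smooth.unit {D : ℕ} {γ : ℤ} (h : Smooth D γ) {q : ℕ} (hq : q.Coprime (2 * D).factorial) :
    IsUnit (γ : ZMod q) := by
  refine unit_of_dvd hq h.1 fun p hp hd => ?_
  exact hp.dvd_factorial.2 ((h.2 p hp hd).trans (by omega))

lemma diff_unit {D : ℕ} {a a' : ℤ} (ha : |a| ≤ D) (ha' : |a'| ≤ D) (hne : a ≠ a') {q : ℕ}
    (hq : q.Coprime (2 * D).factorial) : IsUnit ((a - a' : ℤ) : ZMod q) := by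
  refine unit_of_dvd hq (sub_ne_zero.2 hne) fun p hp hd => ?_
  have h1 : (p : ℤ) ≤ |a - a'| := Int.le_of_dvd (abs_pos.2 (sub_ne_zero.2 hne)) ((dvd_abs _ _).2 hd)
  have h2 : |a - a'| ≤ |a| + |a'| := abs_sub _ _
  refine hp.dvd_factorial.2 ?_
  have : (p : ℤ) ≤ 2 * D := by linarith
  exact_mod_cast this

section one

variable {P : Measure Ω} [IsProbabilityMeasure P] {D : ℕ} {η : ℝ} {d : ι → ℕ → Ω → ℤ}

lemma Free.eta_le [Nonempty ι] (h : Free P D η d) : η ≤ 1 := by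
  obtain ⟨i⟩ := ‹Nonempty ι›
  have h1 := h.atom i 0 0
  have h2 : 0 ≤ P.real {ω | d i 0 ω = 0} := measureReal_nonneg
  linarith

/-- the exponential sum of one digit -/
lemma Free.digit (h : Free P D η d) {q : ℕ} [NeZero q] (hq : q.Coprime (2 * D).factorial) {κ : ℝ} (hκ0 : 0 < κ)
    (hκ : ∀ s : ZMod q, s ≠ 0 → κ ≤ 1 - (ZMod.stdAddChar s : ℂ).re) (i : ι) (j : ℕ) (t : ZMod q) (ht : t ≠ 0) :
    ‖∫ ω, (ZMod.stdAddChar (t * (d i j ω : ZMod q)) : ℂ) ∂P‖ ^ 2 ≤ 1 - κ * η := by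
  classical
  set A : Finset ℤ := Finset.Icc (-(D : ℤ)) D with hA
  have hmem : ∀ ω, d i j ω ∈ A := fun ω => by
    rw [hA, Finset.mem_Icc]
    exact abs_le.1 (h.bdd i j ω)
  have hms : ∀ a : ℤ, MeasurableSet {ω | d i j ω = a} := fun a => h.meas i j (measurableSet_singleton a)
  have key : ∀ f : ℤ → ℂ, ∫ ω, f (d i j ω) ∂P = ∑ a ∈ A, (P.real {ω | d i j ω = a} : ℂ) * f a := by
    intro f
    have e1 : ∀ ω, f (d i j ω) = ∑ a ∈ A, ({ω | d i j ω = a}.indicator (fun _ => f a)) ω := by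
      intro ω
      rw [sum_eq_single (d i j ω)]
      · rw [Set.indicator_of_mem]
        rfl
      · intro a _ ha
        rw [Set.indicator_of_notMem]
        intro h'
        exact ha (h' : d i j ω = a).symm
      · intro h'
        exact absurd (hmem ω) h'
    rw [integral_congr_ae (ae_of_all _ e1), integral_finsetSum _ fun a _ => ?_]
    · refine sum_congr rfl fun a _ => ?_
      rw [integral_indicator_const _ (hms a), Complex.real_smul]
    · exact (integrable_const _).indicator (hms a)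
  rw [key fun a => (ZMod.stdAddChar (t * (a : ZMod q)) : ℂ)]
  refine factor hκ0 hκ A (fun a => P.real {ω | d i j ω = a}) (fun a _ => measureReal_nonneg) ?_
    (fun a _ => h.atom i j a) t ?_
  · have e2 := key fun _ => 1
    simp only [integral_const, mul_one] at e2
    rw [probReal_univ, one_smul] at e2
    exact_mod_cast e2.symm
  · intro a ha a' ha' hne
    rw [hA, Finset.mem_Icc] at ha ha'
    have hu := diff_unit (abs_le.2 ha) (abs_le.2 ha') hne hq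
    have e3 : t * ((a : ℤ) : ZMod q) - t * ((a' : ℤ) : ZMod q) = t * ((a - a' : ℤ) : ZMod q) := by
      push_cast
      ring
    rw [e3]
    intro h0
    exact ht (hu.mul_left_eq_zero.1 h0)

variable [Fintype ι]

/-- the exponential sum of a sum of digits -/
lemma Free.sums (h : Free P D η d) {q : ℕ} [NeZero q] (hq : q.Coprime (2 * D).factorial) {κ : ℝ} (hκ0 : 0 < κ)
    (hκ : ∀ s : ZMod q, s ≠ 0 → κ ≤ 1 - (ZMod.stdAddChar s : ℂ).re) (K : ℕ) (θ : ι → ℕ → ZMod q) (i₀ : ι) (T : Finset ℕ)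
    (hT : T ⊆ range K) (hθ : ∀ j ∈ T, θ i₀ j ≠ 0) :
    ‖∫ ω, ∏ i, ∏ j ∈ range K, (ZMod.stdAddChar (θ i j * (d i j ω : ZMod q)) : ℂ) ∂P‖ ≤ (Real.sqrt (1 - κ * η)) ^ T.card := by
  classical
  have hind : iIndepFun (fun ij : ι × Fin K => d ij.1 ij.2) P := by
    have := h.indep.precomp (g := fun ij : ι × Fin K => (ij.1, (ij.2 : ℕ))) (by
      rintro ⟨a, b⟩ ⟨a', b'⟩ hab
      simp only [Prod.mk.injEq] at hab
      exact Prod.ext hab.1 (Fin.ext hab.2))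
    exact this
  have e1 : ∫ ω, ∏ i, ∏ j ∈ range K, (ZMod.stdAddChar (θ i j * (d i j ω : ZMod q)) : ℂ) ∂P =
      ∏ i, ∏ j ∈ range K, ∫ ω, (ZMod.stdAddChar (θ i j * (d i j ω : ZMod q)) : ℂ) ∂P := by
    have e2 := hind.integral_fun_prod_comp (f := fun (ij : ι × Fin K) (a : ℤ) => (ZMod.stdAddChar (θ ij.1 ij.2 * (a : ZMod q)) : ℂ))
      (fun ij => (h.meas ij.1 ij.2).aemeasurable) (fun ij => (measurable_from_top).aestronglyMeasurable)
    rw [Fintype.prod_prod_type] at e2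
    have e3 : ∀ ω, ∏ i, ∏ j ∈ range K, (ZMod.stdAddChar (θ i j * (d i j ω : ZMod q)) : ℂ) =
        ∏ ij : ι × Fin K, (ZMod.stdAddChar (θ ij.1 ij.2 * (d ij.1 ij.2 ω : ZMod q)) : ℂ) := by
      intro ω
      rw [Fintype.prod_prod_type]
      exact prod_congr rfl fun i _ => prod_range _
    rw [integral_congr_ae (ae_of_all _ e3), e2]
    exact prod_congr rfl fun i _ => (prod_range fun j => ∫ ω, (ZMod.stdAddChar (θ i j * (d i j ω : ZMod q)) : ℂ) ∂P).symm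
  rw [e1, norm_prod]
  have hle1 : ∀ i j, ‖∫ ω, (ZMod.stdAddChar (θ i j * (d i j ω : ZMod q)) : ℂ) ∂P‖ ≤ 1 := by
    intro i j
    refine (norm_integral_le_of_norm_le_const (C := 1) (ae_of_all _ fun ω => (norm_std _).le)).trans ?_
    rw [probReal_univ, mul_one]
  have h1 : ∀ i, ‖∏ j ∈ range K, ∫ ω, (ZMod.stdAddChar (θ i j * (d i j ω : ZMod q)) : ℂ) ∂P‖ ≤ 1 := by
    intro i
    rw [norm_prod]
    exact prod_le_one (fun _ _ => norm_nonneg _) fun j _ => hle1 i j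
  rw [← mul_prod_erase _ _ (mem_univ i₀)]
  have h2 : ∏ i ∈ univ.erase i₀, ‖∏ j ∈ range K, ∫ ω, (ZMod.stdAddChar (θ i j * (d i j ω : ZMod q)) : ℂ) ∂P‖ ≤ 1 :=
    prod_le_one (fun _ _ => norm_nonneg _) fun i _ => h1 i
  refine (mul_le_of_le_one_right (norm_nonneg _) h2).trans ?_
  rw [norm_prod, ← prod_sdiff hT]
  have h3 : ∏ j ∈ range K \ T, ‖∫ ω, (ZMod.stdAddChar (θ i₀ j * (d i₀ j ω : ZMod q)) : ℂ) ∂P‖ ≤ 1 :=
    prod_le_one (fun _ _ => norm_nonneg _) fun j _ => hle1 i₀ j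
  refine (mul_le_of_le_one_left (prod_nonneg fun _ _ => norm_nonneg _) h3).trans ?_
  have h4 : ∀ j ∈ T, ‖∫ ω, (ZMod.stdAddChar (θ i₀ j * (d i₀ j ω : ZMod q)) : ℂ) ∂P‖ ≤ Real.sqrt (1 - κ * η) := by
    intro j hj
    exact Real.le_sqrt_of_sq_le (h.digit hq hκ0 hκ i₀ j _ (hθ j hj))
  refine (prod_le_prod (fun _ _ => norm_nonneg _) h4).trans ?_
  rw [prod_const]

/-- the random sum -/
def sm (u : ι → ℤ) (γ : ι → ℕ → ℤ) (K : ℕ) (d : ι → ℕ → Ω → ℤ) (ω : Ω) (i : ι) : ℤ :=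
  u i + ∑ j ∈ range K, γ i j * d i j ω

lemma chr_sm {q : ℕ} [NeZero q] (h : ι → ZMod q) (u : ι → ℤ) (γ : ι → ℕ → ℤ) (K : ℕ) (ω : Ω) :
    chr q h (fun i => (sm u γ K d ω i : ZMod q)) = chr q h (fun i => (u i : ZMod q)) *
      ∏ i, ∏ j ∈ range K, (ZMod.stdAddChar (h i * (γ i j : ZMod q) * (d i j ω : ZMod q)) : ℂ) := by
  unfold chr
  rw [← prod_mul_distrib]
  refine prod_congr rfl fun i _ => ?_
  show (ZMod.stdAddChar (h i * ((u i + ∑ j ∈ range K, γ i j * d i j ω : ℤ) : ZMod q)) : ℂ) = ZMod.stdAddChar (h i * (u i : ZMod q)) * _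
  rw [Int.cast_add, mul_add, AddChar.map_add_eq_mul, Int.cast_sum, mul_sum]
  congr 1
  have key : ∀ (s : Finset ℕ) (f : ℕ → ZMod q), (ZMod.stdAddChar (∑ j ∈ s, f j) : ℂ) = ∏ j ∈ s, ZMod.stdAddChar (f j) := by
    intro s f
    induction s using Finset.induction_on with
    | empty => simp
    | insert a s ha ih => rw [sum_insert ha, prod_insert ha, AddChar.map_add_eq_mul, ih]
  rw [key]
  refine prod_congr rfl fun j _ => ?_
  rw [Int.cast_mul, mul_assoc]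

lemma meas_sm (h : Free P D η d) (q : ℕ) (u : ι → ℤ) (γ : ι → ℕ → ℤ) (K : ℕ) :
    Measurable fun ω => (fun i => (sm u γ K d ω i : ZMod q)) := by
  refine measurable_pi_lambda _ fun i => ?_
  have h1 : Measurable fun ω => sm u γ K d ω i :=
    measurable_const.add (Finset.measurable_sum _ fun j _ => measurable_const.mul (h.meas i j))
  exact (measurable_from_top (f := fun a : ℤ => (a : ZMod q))).comp h1

/-- **E1.** -/
theorem small {B : Set (ι → ℤ)} (hB : ProNull B) (D : ℕ) {η : ℝ} (hη : 0 < η) {ε : ℝ} (hε : 0 < ε) :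
    ∃ K₀ : ℕ, ∀ K ≥ K₀, ∀ (Ω : Type) [MeasurableSpace Ω] (P : Measure Ω) [IsProbabilityMeasure P] (d : ι → ℕ → Ω → ℤ),
      Free P D η d → ∀ (γ : ι → ℕ → ℤ), (∀ i, ∀ j < K, Smooth D (γ i j)) → ∀ u : ι → ℤ,
      P.real {ω | sm u γ K d ω ∈ B} ≤ ε := by
  classical
  obtain ⟨q, hq, hqM, hqB⟩ := hB (2 * D).factorial (Nat.factorial_pos _) (ε / 2) (by positivity)
  have : NeZero q := ⟨hq.ne'⟩
  obtain ⟨κ, hκ0, hκ1, hκ⟩ := gap q
  set ρ : ℝ := Real.sqrt (1 - κ * η) with hρ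
  have hρ0 : 0 ≤ ρ := Real.sqrt_nonneg _
  have hρ1 : ρ < 1 := by
    rw [hρ]
    have : 1 - κ * η < 1 := by
      have := mul_pos hκ0 hη
      linarith
    calc Real.sqrt (1 - κ * η) < Real.sqrt 1 := by
          rw [Real.sqrt_lt_sqrt_iff_of_pos one_pos]
          exact this
      _ = 1 := Real.sqrt_one
  have hQ : (0 : ℝ) < (q : ℝ) ^ Fintype.card ι := by
    have : (0 : ℝ) < q := by exact_mod_cast hq
    positivity
  obtain ⟨K₀, hK₀⟩ := exists_pow_lt_of_lt_one (show (0 : ℝ) < ((q : ℝ) ^ Fintype.card ι)⁻¹ by positivity) hρ1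
  refine ⟨K₀, fun K hK Ω _ P _ d hd γ hγ u => ?_⟩
  set S := (fun (c : ι → ℤ) (i : ι) => (c i : ZMod q)) '' B with hS
  have h1 : {ω | sm u γ K d ω ∈ B} ⊆ {ω | (fun i => (sm u γ K d ω i : ZMod q)) ∈ S} :=
    fun ω hω => ⟨_, hω, rfl⟩
  have h2 := prob_le q P (fun ω => (fun i => (sm u γ K d ω i : ZMod q))) (meas_sm hd q u γ K) S (ρ ^ K) (by positivity) (by
    intro h hh
    obtain ⟨i₀, hi₀⟩ : ∃ i, h i ≠ 0 := by
      by_contra hc
      push Not at hc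
      exact hh (funext hc)
    simp only [chr_sm]
    rw [integral_const_mul, norm_mul, norm_chr, one_mul]
    have h3 := hd.sums hqM hκ0 hκ K (fun i j => h i * (γ i j : ZMod q)) i₀ (range K) (Subset.refl _) (by
      intro j hj h0
      exact hi₀ (((hγ i₀ j (mem_range.1 hj)).unit hqM).mul_left_eq_zero.1 h0))
    rw [card_range] at h3
    exact h3)
  rw [probReal_univ] at h2
  refine (measureReal_mono h1).trans (h2.trans ?_)
  have h3 : ρ ^ K ≤ ((q : ℝ) ^ Fintype.card ι)⁻¹ := (pow_le_pow_of_le_one hρ0 hρ1.le hK).trans hK₀.le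
  have h4 : (q : ℝ) ^ Fintype.card ι * ρ ^ K ≤ 1 := by
    calc (q : ℝ) ^ Fintype.card ι * ρ ^ K ≤ (q : ℝ) ^ Fintype.card ι * ((q : ℝ) ^ Fintype.card ι)⁻¹ := by gcongr
      _ = 1 := mul_inv_cancel₀ hQ.ne'
  have h5 : (S.ncard : ℝ) * ((q : ℝ) ^ Fintype.card ι)⁻¹ ≤ ε / 2 := by
    rw [← div_eq_mul_inv, div_le_iff₀ hQ]
    exact hqB
  have h6 : 0 ≤ (S.ncard : ℝ) * ((q : ℝ) ^ Fintype.card ι)⁻¹ := by positivity
  calc (S.ncard : ℝ) * ((q : ℝ) ^ Fintype.card ι)⁻¹ * (1 + (q : ℝ) ^ Fintype.card ι * ρ ^ K)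
      ≤ (ε / 2) * (1 + 1) := by
        apply mul_le_mul h5 (by linarith) (by positivity) (by linarith)
    _ = ε := by ring

end one

end Pool.Agent.HP25.TW
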