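import Pool.Agent.HP25.TW.B
import Pool.Agent.N676.OR.Diag

/-!
# Rare visits in pronull sets, from exponential sums (helper25)
-/

set_option autoImplicit false
set_option linter.unusedSectionVars false
set_option linter.unusedVariables false

namespace Pool.Agent.HP25.TW

open MeasureTheory ProbabilityTheory Finset Filter Topology
open Pool.Agent.N24.RW (ProNull)
open Pool.Agent.N24.KM (Rarely e t_TOR t_AE)
open Pool.Agent.N676.OR (dz_iff DensityZero)

variable {ι : Type} [Fintype ι]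

lemma rarely_iff (c : ℕ → ι → ℤ) (B : Set (ι → ℤ)) : Rarely c B ↔ ∀ ε : ℝ, 0 < ε → ∃ N₀ : ℕ, ∀ N : ℕ, N₀ ≤ N →
    (({n : ℕ | n < N ∧ c n ∈ B}.ncard : ℕ) : ℝ) ≤ ε * N := dz_iff {n | c n ∈ B}

/-- the upper density of the indices with `c n ∈ B` is small if `B` meets few residue classes modulo `q` -/
def Equi (M : ℕ) (c : ℕ → ι → ℤ) : Prop :=
  ∀ q : ℕ, 0 < q → q.Coprime M → ∀ (B : Set (ι → ℤ)) (ε : ℝ), 0 < ε →
    ((((fun (c : ι → ℤ) (i : ι) => (c i : ZMod q)) '' B).ncard : ℕ) : ℝ) ≤ ε * (q : ℝ) ^ Fintype.card ι →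
    ∃ N₀ : ℕ, ∀ N : ℕ, N₀ ≤ N → (({n : ℕ | n < N ∧ c n ∈ B}.ncard : ℕ) : ℝ) ≤ 2 * ε * N

lemma Equi.rarely {M : ℕ} {c : ℕ → ι → ℤ} (h : Equi M c) (hM : 0 < M) {B : Set (ι → ℤ)} (hB : ProNull B) : Rarely c B := by
  rw [rarely_iff]
  intro ε hε
  obtain ⟨q, hq, hqM, hqB⟩ := hB M hM (ε / 2) (by positivity)
  obtain ⟨N₀, hN₀⟩ := h q hq hqM B (ε / 2) (by positivity) hqB
  refine ⟨N₀, fun N hN => (hN₀ N hN).trans (le_of_eq ?_)⟩
  ring

/-- from residue classes -/
theorem equi_cls {M : ℕ} (c : ℕ → ι → ℤ) (hc : ∀ q : ℕ, 0 < q → q.Coprime M → ∀ (r : ι → ZMod q) (ε : ℝ), 0 < ε →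
    ∀ᶠ N : ℕ in atTop, (({n : ℕ | n < N ∧ ∀ i, ((c n i : ℤ) : ZMod q) = r i}.ncard : ℕ) : ℝ) ≤
      (((q : ℝ) ^ Fintype.card ι)⁻¹ + ε) * N) : Equi M c := by
  classical
  intro q hq hqM B ε hε hqB
  have : NeZero q := ⟨hq.ne'⟩
  have hQ : (0 : ℝ) < (q : ℝ) ^ Fintype.card ι := by
    have : (0 : ℝ) < q := by exact_mod_cast hq
    positivity
  obtain ⟨I, hI⟩ : ∃ I : Set (ι → ZMod q), I = (fun (c : ι → ℤ) (i : ι) => (c i : ZMod q)) '' B := ⟨_, rfl⟩
  rw [← hI] at hqB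
  have hIf : I.Finite := Set.toFinite _
  have hcl : ∀ᶠ N : ℕ in atTop, ∀ r : ι → ZMod q,
      (({n : ℕ | n < N ∧ ∀ i, ((c n i : ℤ) : ZMod q) = r i}.ncard : ℕ) : ℝ) ≤
      (((q : ℝ) ^ Fintype.card ι)⁻¹ + ε / (I.ncard + 1)) * N := by
    rw [eventually_all]
    intro r
    exact hc q hq hqM r (ε / (I.ncard + 1)) (by positivity)
  obtain ⟨N₀, hN₀⟩ := eventually_atTop.1 hcl
  refine ⟨N₀, fun N hN => ?_⟩
  have hN := hN₀ N hN
  have hsub : {n : ℕ | n < N ∧ c n ∈ B} ⊆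
      ⋃ r ∈ hIf.toFinset, {n : ℕ | n < N ∧ ∀ i, ((c n i : ℤ) : ZMod q) = r i} := by
    intro n hn
    rw [Set.mem_iUnion₂]
    refine ⟨fun i => ((c n i : ℤ) : ZMod q), ?_, hn.1, fun i => rfl⟩
    rw [Set.Finite.mem_toFinset, hI]
    exact ⟨_, hn.2, rfl⟩
  have hfin : (⋃ r ∈ hIf.toFinset,
      {n : ℕ | n < N ∧ ∀ i, ((c n i : ℤ) : ZMod q) = r i}).Finite := by
    refine (Set.finite_Iio N).subset ?_
    intro n hn
    rw [Set.mem_iUnion₂] at hn
    obtain ⟨r, _, hn⟩ := hn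
    exact hn.1
  have h1 := (Set.ncard_le_ncard hsub hfin).trans (Finset.set_ncard_biUnion_le _ _)
  have h2 : ((({n : ℕ | n < N ∧ c n ∈ B}.ncard : ℕ)) : ℝ) ≤
      ∑ r ∈ hIf.toFinset, (({n : ℕ | n < N ∧ ∀ i, ((c n i : ℤ) : ZMod q) = r i}.ncard : ℕ) : ℝ) := by
    exact_mod_cast h1
  refine h2.trans ((sum_le_sum fun c _ => hN c).trans ?_)
  rw [sum_const, nsmul_eq_mul, ← Set.ncard_eq_toFinset_card I hIf]
  have h3 : (I.ncard : ℝ) * ((q : ℝ) ^ Fintype.card ι)⁻¹ ≤ ε := by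
    rw [← div_eq_mul_inv, div_le_iff₀ hQ]
    exact hqB
  have h4 : (I.ncard : ℝ) * (ε / (I.ncard + 1)) ≤ ε := by
    have h5 : (0 : ℝ) < I.ncard + 1 := by positivity
    rw [← mul_div_assoc, div_le_iff₀ h5]
    nlinarith
  have hNr : (0 : ℝ) ≤ N := Nat.cast_nonneg _
  calc (I.ncard : ℝ) * ((((q : ℝ) ^ Fintype.card ι)⁻¹ + ε / (I.ncard + 1)) * N)
      = ((I.ncard : ℝ) * ((q : ℝ) ^ Fintype.card ι)⁻¹ + (I.ncard : ℝ) * (ε / (I.ncard + 1))) * N := by ring
    _ ≤ (ε + ε) * N := by gcongr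
    _ = 2 * ε * N := by ring

/-- the criterion for integral sequences -/
theorem equi_int {M : ℕ} (c : ℕ → ι → ℤ)
    (hc : ∀ (q : ℕ) [NeZero q], q.Coprime M → ∀ h : ι → ZMod q, h ≠ 0 →
      Tendsto (fun N : ℕ => (1 / (N : ℂ)) * ∑ n ∈ range N, chr q h (fun i => (c n i : ZMod q))) atTop (𝓝 0)) :
    Equi M c := by
  classical
  intro q hq hqM B ε hε hqB
  have : NeZero q := ⟨hq.ne'⟩
  have hQ : (0 : ℝ) < (q : ℝ) ^ Fintype.card ι := by
    have : (0 : ℝ) < q := by exact_mod_cast hq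
    positivity
  have h1 : Tendsto (fun N : ℕ => ∑ h ∈ univ.erase (0 : ι → ZMod q),
      ‖(1 / (N : ℂ)) * ∑ n ∈ range N, chr q h (fun i => (c n i : ZMod q))‖) atTop (𝓝 0) := by
    have h2 : Tendsto (fun N : ℕ => ∑ h ∈ univ.erase (0 : ι → ZMod q),
        ‖(1 / (N : ℂ)) * ∑ n ∈ range N, chr q h (fun i => (c n i : ZMod q))‖) atTop
        (𝓝 (∑ h ∈ univ.erase (0 : ι → ZMod q), 0)) := by
      refine tendsto_finsetSum _ fun h hh => ?_
      have h3 := (hc q hqM h (ne_of_mem_erase hh)).norm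
      rwa [norm_zero] at h3
    rwa [sum_const_zero] at h2
  obtain ⟨N₀, hN₀⟩ := eventually_atTop.1 (h1.eventually_le_const (show (0 : ℝ) < ((q : ℝ) ^ Fintype.card ι)⁻¹ by positivity))
  refine ⟨N₀ + 1, fun N hN => ?_⟩
  have hN1 := hN₀ N (by omega)
  have hNr : (0 : ℝ) < N := by exact_mod_cast (by omega : 0 < N)
  set S := (fun (c : ι → ℤ) (i : ι) => (c i : ZMod q)) '' B with hS
  set P : Measure ℕ := ∑ n ∈ range N, Measure.dirac n with hP
  have hPA : ∀ A : Set ℕ, P A = (((range N).filter (fun n => n ∈ A)).card : ENNReal) := by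
    intro A
    rw [hP, Measure.finsetSum_apply]
    have h2 : ∀ n ∈ range N, (Measure.dirac n) A = if n ∈ A then (1 : ENNReal) else 0 := by
      intro n _
      rw [Measure.dirac_apply' _ (MeasurableSet.of_discrete), Set.indicator_apply]
      rfl
    rw [sum_congr rfl h2, sum_ite, sum_const_zero, add_zero, sum_const, nsmul_eq_mul, mul_one]
  have : IsFiniteMeasure P := ⟨by rw [hPA]; exact ENNReal.natCast_lt_top _⟩
  have hPr : ∀ A : Set ℕ, P.real A = (((range N).filter (fun n => n ∈ A)).card : ℝ) := by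
    intro A
    rw [measureReal_def, hPA, ENNReal.toReal_natCast]
  have hPi : ∀ f : ℕ → ℂ, ∫ n, f n ∂P = ∑ n ∈ range N, f n := by
    intro f
    rw [hP, integral_finsetSum_measure fun n _ => integrable_dirac' (measurable_from_top).stronglyMeasurable (by simp)]
    exact sum_congr rfl fun n _ => integral_dirac' f n (measurable_from_top).stronglyMeasurable
  have h2 := prob_le q P (fun n => (fun i => (c n i : ZMod q))) measurable_from_top S
    (N * ((q : ℝ) ^ Fintype.card ι)⁻¹) (by positivity) (by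
    intro h hh
    rw [hPi]
    have h3 : ‖(1 / (N : ℂ)) * ∑ n ∈ range N, chr q h (fun i => (c n i : ZMod q))‖ ≤ ((q : ℝ) ^ Fintype.card ι)⁻¹ :=
      (single_le_sum (f := fun h => ‖(1 / (N : ℂ)) * ∑ n ∈ range N, chr q h (fun i => (c n i : ZMod q))‖)
        (fun h _ => norm_nonneg _) (mem_erase.2 ⟨hh, mem_univ h⟩)).trans hN1
    rw [norm_mul, norm_div, norm_one, Complex.norm_natCast, one_div, inv_mul_le_iff₀ hNr] at h3
    exact h3)
  have h4 : P.real Set.univ = N := by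
    rw [hPr]
    simp
  rw [h4, hPr] at h2
  have h3 : ((({n : ℕ | n < N ∧ c n ∈ B}.ncard : ℕ)) : ℝ) ≤
      (((range N).filter (fun n => n ∈ {n | (fun i => (c n i : ZMod q)) ∈ S})).card : ℝ) := by
    have h4 : {n : ℕ | n < N ∧ c n ∈ B} ⊆ (((range N).filter (fun n => n ∈ {n | (fun i => (c n i : ZMod q)) ∈ S}) : Finset ℕ) : Set ℕ) := by
      rintro n ⟨hn, hb⟩
      rw [mem_coe, mem_filter]
      exact ⟨mem_range.2 hn, ⟨_, hb, rfl⟩⟩
    have h5 := Set.ncard_le_ncard h4 (finite_toSet _)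
    rw [Set.ncard_coe_finset] at h5
    exact_mod_cast h5
  have h5 : (S.ncard : ℝ) * ((q : ℝ) ^ Fintype.card ι)⁻¹ ≤ ε := by
    rw [← div_eq_mul_inv, div_le_iff₀ hQ]
    exact hqB
  have h6 : (q : ℝ) ^ Fintype.card ι * (N * ((q : ℝ) ^ Fintype.card ι)⁻¹) = N := by
    field_simp
  rw [h6] at h2
  refine h3.trans (h2.trans ?_)
  calc (S.ncard : ℝ) * ((q : ℝ) ^ Fintype.card ι)⁻¹ * (N + N) ≤ ε * (N + N) := by gcongr
    _ = 2 * ε * N := by ring

/-- the criterion for the integral parts of real sequences -/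
theorem equi_real {M : ℕ} (x : ℕ → ι → ℝ)
    (hx : ∀ q : ℕ, 0 < q → q.Coprime M → ∀ h : ι → ℤ, h ≠ 0 →
      Tendsto (fun N : ℕ => (1 / (N : ℂ)) * ∑ n ∈ range N, e (∑ i, (h i : ℝ) * x n i / q)) atTop (𝓝 0)) :
    Equi M (fun n i => ⌊x n i⌋) :=
  equi_cls _ fun q hq hqM r ε hε => t_TOR ι q hq x (fun h h0 => hx q hq hqM h h0) r ε hε

section moment

variable {Ω : Type} [MeasurableSpace Ω]

/-- the second moment -/
lemma moment (P : Measure Ω) [IsFiniteMeasure P] (u : ℕ → Ω → ℂ) (hu : ∀ n, Measurable (u n))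
    (hb : ∀ n ω, ‖u n ω‖ ≤ 1) (N : ℕ) :
    ∫ ω, ‖∑ n ∈ range N, u n ω‖ ^ 2 ∂P ≤
      ∑ n ∈ range N, ∑ m ∈ range N, ‖∫ ω, u n ω * (starRingEnd ℂ) (u m ω) ∂P‖ := by
  have hint : ∀ n m, Integrable (fun ω => u n ω * (starRingEnd ℂ) (u m ω)) P := by
    intro n m
    refine Integrable.of_bound ((hu n).mul (Complex.continuous_conj.measurable.comp (hu m))).aestronglyMeasurable 1
      (ae_of_all _ fun ω => ?_)
    rw [norm_mul, RCLike.norm_conj]
    exact mul_le_one₀ (hb n ω) (norm_nonneg _) (hb m ω)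
  have h1 : ∀ ω, ((‖∑ n ∈ range N, u n ω‖ ^ 2 : ℝ) : ℂ) = ∑ n ∈ range N, ∑ m ∈ range N, u n ω * (starRingEnd ℂ) (u m ω) := by
    intro ω
    rw [← sum_mul_sum, ← map_sum, Complex.mul_conj, Complex.normSq_eq_norm_sq]
  have h2 : ((∫ ω, ‖∑ n ∈ range N, u n ω‖ ^ 2 ∂P : ℝ) : ℂ) = ∑ n ∈ range N, ∑ m ∈ range N, ∫ ω, u n ω * (starRingEnd ℂ) (u m ω) ∂P := by
    rw [← integral_complex_ofReal, integral_congr_ae (ae_of_all _ h1), integral_finsetSum _ fun n _ => integrable_finsetSum _ fun m _ => hint n m]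
    exact sum_congr rfl fun n _ => integral_finsetSum _ fun m _ => hint n m
  have h3 : ∫ ω, ‖∑ n ∈ range N, u n ω‖ ^ 2 ∂P = ‖((∫ ω, ‖∑ n ∈ range N, u n ω‖ ^ 2 ∂P : ℝ) : ℂ)‖ := by
    rw [Complex.norm_real, Real.norm_of_nonneg]
    exact integral_nonneg fun ω => by positivity
  rw [h3, h2]
  exact (norm_sum_le _ _).trans (sum_le_sum fun n _ => norm_sum_le _ _)

lemma conj_sym (P : Measure Ω) (u v : Ω → ℂ) :
    ‖∫ ω, u ω * (starRingEnd ℂ) (v ω) ∂P‖ = ‖∫ ω, v ω * (starRingEnd ℂ) (u ω) ∂P‖ := by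
  rw [← RCLike.norm_conj (∫ ω, u ω * (starRingEnd ℂ) (v ω) ∂P), ← integral_conj]
  congr 1
  refine integral_congr_ae (ae_of_all _ fun ω => ?_)
  simp only [map_mul, Complex.conj_conj]
  rw [mul_comm]

lemma geo {ρ : ℝ} (h0 : 0 ≤ ρ) (h1 : ρ < 1) (N m : ℕ) :
    ∑ n ∈ range N, ρ ^ ((n - m) + (m - n)) ≤ 2 / (1 - ρ) := by
  classical
  have hg : ∀ s : Finset ℕ, ∑ k ∈ s, ρ ^ k ≤ 1 / (1 - ρ) := by
    intro s
    rw [one_div, ← tsum_geometric_of_lt_one h0 h1]
    exact (summable_geometric_of_lt_one h0 h1).sum_le_tsum s fun k _ => by positivity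
  rw [← sum_filter_add_sum_filter_not (range N) (fun n => m ≤ n)]
  have h2 : ∑ n ∈ (range N).filter (fun n => m ≤ n), ρ ^ ((n - m) + (m - n)) ≤ 1 / (1 - ρ) := by
    have h3 : ∑ n ∈ (range N).filter (fun n => m ≤ n), ρ ^ ((n - m) + (m - n)) =
        ∑ k ∈ ((range N).filter (fun n => m ≤ n)).image (fun n => n - m), ρ ^ k := by
      rw [sum_image]
      · refine sum_congr rfl fun n hn => ?_
        rw [Nat.sub_eq_zero_of_le (mem_filter.1 hn).2, add_zero]
      · intro a ha b hb hab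
        have h4 := (mem_filter.1 ha).2
        have h5 := (mem_filter.1 hb).2
        simp only at hab
        omega
    rw [h3]
    exact hg _
  have h2' : ∑ n ∈ (range N).filter (fun n => ¬ m ≤ n), ρ ^ ((n - m) + (m - n)) ≤ 1 / (1 - ρ) := by
    have h3 : ∑ n ∈ (range N).filter (fun n => ¬ m ≤ n), ρ ^ ((n - m) + (m - n)) =
        ∑ k ∈ ((range N).filter (fun n => ¬ m ≤ n)).image (fun n => m - n), ρ ^ k := by
      rw [sum_image]
      · refine sum_congr rfl fun n hn => ?_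
        rw [Nat.sub_eq_zero_of_le (not_le.1 (mem_filter.1 hn).2).le, zero_add]
      · intro a ha b hb hab
        have h4 := (mem_filter.1 ha).2
        have h5 := (mem_filter.1 hb).2
        simp only at hab
        omega
    rw [h3]
    exact hg _
  have h6 : (2 : ℝ) / (1 - ρ) = 1 / (1 - ρ) + 1 / (1 - ρ) := by ring
  rw [h6]
  exact add_le_add h2 h2'

end moment

section digits

variable {Ω : Type} [MeasurableSpace Ω] {P : Measure Ω} [IsProbabilityMeasure P] {D : ℕ} {η : ℝ}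
  {d : ι → ℕ → Ω → ℤ}

lemma std_neg {q : ℕ} [NeZero q] (x : ZMod q) : (starRingEnd ℂ) (ZMod.stdAddChar x : ℂ) = ZMod.stdAddChar (-x) := by
  rw [AddChar.map_neg_eq_inv, ZMod.stdAddChar_apply]
  exact (Circle.coe_inv_eq_conj _).symm.trans (by rw [Circle.coe_inv])

lemma corr (hd : Free P D η d) {q : ℕ} [NeZero q] (hq : q.Coprime (2 * D).factorial) {κ : ℝ} (hκ0 : 0 < κ)
    (hκ : ∀ s : ZMod q, s ≠ 0 → κ ≤ 1 - (ZMod.stdAddChar s : ℂ).re) (γ γ' : ι → ℕ → ℤ) (u u' : ι → ℤ) {m n : ℕ} (hmn : m ≤ n)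
    (hγ : ∀ i, ∀ j < n, Smooth D (γ i j)) (h : ι → ZMod q) (hh : h ≠ 0) :
    ‖∫ ω, chr q h (fun i => (sm u γ n d ω i : ZMod q)) * (starRingEnd ℂ) (chr q h (fun i => (sm u' γ' m d ω i : ZMod q))) ∂P‖ ≤
      (Real.sqrt (1 - κ * η)) ^ (n - m) := by
  classical
  obtain ⟨i₀, hi₀⟩ : ∃ i, h i ≠ 0 := by
    by_contra hc
    push Not at hc
    exact hh (funext hc)
  have e1 : ∀ ω, chr q h (fun i => (sm u γ n d ω i : ZMod q)) * (starRingEnd ℂ) (chr q h (fun i => (sm u' γ' m d ω i : ZMod q))) =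
      (chr q h (fun i => (u i : ZMod q)) * (starRingEnd ℂ) (chr q h (fun i => (u' i : ZMod q)))) *
      ∏ i, ∏ j ∈ range n, (ZMod.stdAddChar ((h i * (γ i j : ZMod q) - if j < m then h i * (γ' i j : ZMod q) else 0) * (d i j ω : ZMod q)) : ℂ) := by
    intro ω
    rw [chr_sm, chr_sm, map_mul, map_prod]
    have e2 : ∀ i, (starRingEnd ℂ) (∏ j ∈ range m, (ZMod.stdAddChar (h i * (γ' i j : ZMod q) * (d i j ω : ZMod q)) : ℂ)) =
        ∏ j ∈ range n, (if j < m then (ZMod.stdAddChar (-(h i * (γ' i j : ZMod q) * (d i j ω : ZMod q))) : ℂ) else 1) := by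
      intro i
      rw [map_prod, ← prod_subset (range_subset_range.2 hmn)]
      · refine prod_congr rfl fun j hj => ?_
        rw [if_pos (mem_range.1 hj), std_neg]
      · intro j _ hj
        rw [if_neg (fun h' => hj (mem_range.2 h'))]
    simp only [e2]
    have e3 : ∀ i, ∏ j ∈ range n, (ZMod.stdAddChar ((h i * (γ i j : ZMod q) - if j < m then h i * (γ' i j : ZMod q) else 0) * (d i j ω : ZMod q)) : ℂ) =
        (∏ j ∈ range n, (ZMod.stdAddChar (h i * (γ i j : ZMod q) * (d i j ω : ZMod q)) : ℂ)) *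
        ∏ j ∈ range n, (if j < m then (ZMod.stdAddChar (-(h i * (γ' i j : ZMod q) * (d i j ω : ZMod q))) : ℂ) else 1) := by
      intro i
      rw [← prod_mul_distrib]
      refine prod_congr rfl fun j _ => ?_
      split_ifs with hj
      · rw [← AddChar.map_add_eq_mul]
        congr 1
        ring
      · rw [sub_zero, mul_one]
    simp only [e3]
    rw [prod_mul_distrib]
    ring
  rw [integral_congr_ae (ae_of_all _ e1), integral_const_mul, norm_mul, norm_mul, norm_chr, RCLike.norm_conj, norm_chr, one_mul,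
    one_mul]
  have h1 := hd.sums hq hκ0 hκ n (fun i j => h i * (γ i j : ZMod q) - if j < m then h i * (γ' i j : ZMod q) else 0) i₀
    (Finset.Ico m n) (by
      intro j hj
      exact mem_range.2 (Finset.mem_Ico.1 hj).2) (by
      intro j hj
      rw [Finset.mem_Ico] at hj
      rw [if_neg (by omega), sub_zero]
      intro h0
      exact hi₀ (((hγ i₀ j hj.2).unit hq).mul_left_eq_zero.1 h0))
  rwa [Nat.card_Ico] at h1

/-- **E2.** -/
theorem ae_sums (hd : Free P D η d) (hη : 0 < η) (γ : ℕ → ι → ℕ → ℤ)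
    (hγ : ∀ n i, ∀ j < n, Smooth D (γ n i j)) (u : ℕ → ι → ℤ) :
    ∀ᵐ ω ∂P, Equi (2 * D).factorial (fun n => sm (u n) (γ n) n d ω) := by
  classical
  have h1 : ∀ᵐ ω ∂P, ∀ (q : ℕ), (hq0 : q ≠ 0) → q.Coprime (2 * D).factorial → ∀ h : ι → ZMod q, h ≠ 0 →
      Tendsto (fun N : ℕ => (1 / (N : ℂ)) * ∑ n ∈ range N, @chr ι _ q ⟨hq0⟩ h (fun i => (sm (u n) (γ n) n d ω i : ZMod q))) atTop (𝓝 0) := by
    rw [ae_all_iff]
    intro q
    by_cases hq0 : q = 0
    · exact ae_of_all _ fun ω h => absurd hq0 h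
    by_cases hqM : q.Coprime (2 * D).factorial
    swap
    · exact ae_of_all _ fun ω _ h => absurd h hqM
    have : NeZero q := ⟨hq0⟩
    have h2 : ∀ᵐ ω ∂P, ∀ h : ι → ZMod q, h ≠ 0 →
        Tendsto (fun N : ℕ => (1 / (N : ℂ)) * ∑ n ∈ range N, chr q h (fun i => (sm (u n) (γ n) n d ω i : ZMod q))) atTop (𝓝 0) := by
      rw [ae_all_iff]
      intro h
      by_cases hh : h = 0
      · exact ae_of_all _ fun ω h' => absurd hh h'
      obtain ⟨κ, hκ0, hκ1, hκ⟩ := gap q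
      set ρ : ℝ := Real.sqrt (1 - κ * η) with hρ
      have hρ0 : 0 ≤ ρ := Real.sqrt_nonneg _
      have hρ1 : ρ < 1 := by
        rw [hρ]
        have : 1 - κ * η < 1 := by
          have := mul_pos hκ0 hη
          linarith
        calc Real.sqrt (1 - κ * η) < Real.sqrt 1 := by
              rw [Real.sqrt_lt_sqrt_iff_of_pos one_pos]
              exact this
          _ = 1 := Real.sqrt_one
      have hum : ∀ n, Measurable fun ω => chr q h (fun i => (sm (u n) (γ n) n d ω i : ZMod q)) := fun n =>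
        (measurable_of_finite (fun x : ι → ZMod q => chr q h x)).comp (meas_sm hd q (u n) (γ n) n)
      have h3 := t_AE Ω P (fun n ω => chr q h (fun i => (sm (u n) (γ n) n d ω i : ZMod q))) (2 / (1 - ρ)) hum
        (fun n ω => (norm_chr _ _).le) (by
        intro N
        refine (moment P _ hum (fun n ω => (norm_chr _ _).le) N).trans ?_
        have h4 : ∀ n ∈ range N, ∑ m ∈ range N, ‖∫ ω, chr q h (fun i => (sm (u n) (γ n) n d ω i : ZMod q)) *
            (starRingEnd ℂ) (chr q h (fun i => (sm (u m) (γ m) m d ω i : ZMod q))) ∂P‖ ≤ 2 / (1 - ρ) := by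
          intro n _
          refine (sum_le_sum fun m _ => ?_).trans (geo hρ0 hρ1 N n)
          rcases le_total m n with hmn | hmn
          · rw [Nat.sub_eq_zero_of_le hmn, zero_add]
            exact corr hd hqM hκ0 hκ (γ n) (γ m) (u n) (u m) hmn (hγ n) h hh
          · rw [Nat.sub_eq_zero_of_le hmn, add_zero, conj_sym]
            exact corr hd hqM hκ0 hκ (γ m) (γ n) (u m) (u n) hmn (hγ m) h hh
        refine (sum_le_sum h4).trans ?_
        rw [sum_const, card_range, nsmul_eq_mul]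
        have h5 : 0 ≤ 2 / (1 - ρ) := by
          have : 0 < 1 - ρ := by linarith
          positivity
        rcases Nat.eq_zero_or_pos N with h6 | h6
        · subst h6
          simp
        · have h7 : (1 : ℝ) ≤ Real.sqrt N := by
            rw [Real.one_le_sqrt]
            exact_mod_cast h6
          calc (N : ℝ) * (2 / (1 - ρ)) = 2 / (1 - ρ) * N * 1 := by ring
            _ ≤ 2 / (1 - ρ) * N * Real.sqrt N := by gcongr)
      filter_upwards [h3] with ω hω _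
      exact hω
    filter_upwards [h2] with ω hω _ _
    exact hω
  filter_upwards [h1] with ω hω
  refine equi_int _ fun q hq hqM h hh => ?_
  exact hω q hq.out hqM h hh

end digits

end Pool.Agent.HP25.TW
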