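import Pool.Agent.HP25.TW.C

/-!
# The prefixes of normal numbers (helper25)
-/

set_option autoImplicit false
set_option linter.unusedSectionVars false
set_option linter.unusedVariables false

namespace Pool.Agent.HP25.TW

open MeasureTheory ProbabilityTheory Finset Filter Topology
open Pool.Agent.N24.RW (ProNull)
open Pool.Agent.N24.KM (Rarely e)

lemma e_add (x y : ℝ) : e (x + y) = e x * e y := by
  unfold e
  rw [← Complex.exp_add]
  congr 1
  push_cast
  ring

lemma e_zero : e 0 = 1 := by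
  unfold e
  simp

lemma e_int (k : ℤ) : e k = 1 := by
  unfold e
  rw [Complex.exp_eq_one_iff]
  exact ⟨k, by push_cast; ring⟩

lemma norm_e (x : ℝ) : ‖e x‖ = 1 := by
  unfold e
  have : (2 * Real.pi * x * Complex.I : ℂ) = ((2 * Real.pi * x : ℝ) : ℂ) * Complex.I := by push_cast; ring
  rw [this, Complex.norm_exp_ofReal_mul_I]

lemma e_neg (x : ℝ) : e (-x) = (starRingEnd ℂ) (e x) := by
  unfold e
  rw [← Complex.exp_conj]
  congr 1
  simp only [map_mul, Complex.conj_I, Complex.conj_ofReal, Complex.ofReal_neg, map_ofNat]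
  ring

lemma e_mul_nat (x : ℝ) (n : ℕ) : e (x * n) = (e x) ^ n := by
  induction n with
  | zero => simp [e_zero]
  | succ n ih =>
    rw [pow_succ, ← ih, ← e_add]
    congr 1
    push_cast
    ring

lemma e_eq_one {x : ℝ} (h : e x = 1) : ∃ k : ℤ, x = k := by
  unfold e at h
  rw [Complex.exp_eq_one_iff] at h
  obtain ⟨k, hk⟩ := h
  refine ⟨k, ?_⟩
  have h1 : (2 * Real.pi * Complex.I : ℂ) ≠ 0 := Complex.two_pi_I_ne_zero
  have h2 : (x : ℂ) = k := by
    have h3 : (2 * Real.pi * Complex.I : ℂ) * x = (2 * Real.pi * Complex.I) * k := by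
      rw [show (2 * Real.pi * Complex.I : ℂ) * x = 2 * Real.pi * x * Complex.I by ring, hk]
      ring
    exact mul_left_cancel₀ h1 h3
  exact_mod_cast h2

/-- the sum over a complete residue system -/
lemma full {q : ℕ} (hq : 0 < q) (a : ℤ) (z : ℝ) :
    ∑ j ∈ range q, e ((a : ℝ) * (z + j) / q) = if (q : ℤ) ∣ a then (q : ℂ) * e (((a / q : ℤ) : ℝ) * z) else 0 := by
  have hq0 : (q : ℝ) ≠ 0 := by exact_mod_cast hq.ne'
  have h1 : ∀ j : ℕ, e ((a : ℝ) * (z + j) / q) = e ((a : ℝ) * z / q) * (e ((a : ℝ) / q)) ^ j := by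
    intro j
    rw [← e_mul_nat, ← e_add]
    congr 1
    ring
  simp only [h1, ← mul_sum]
  split_ifs with hd
  · obtain ⟨k, rfl⟩ := hd
    have h2 : (((q : ℤ) * k : ℤ) : ℝ) / q = (k : ℤ) := by
      push_cast
      field_simp
    have h3 : ((q : ℤ) * k) / (q : ℤ) = k := Int.mul_ediv_cancel_left k (by exact_mod_cast hq.ne')
    rw [h3]
    have h4 : (((q : ℤ) * k : ℤ) : ℝ) * z / q = (k : ℝ) * z := by
      push_cast
      field_simp
    rw [h4, h2, e_int]
    simp
    ring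
  · have hne : e ((a : ℝ) / q) ≠ 1 := by
      intro h
      obtain ⟨k, hk⟩ := e_eq_one h
      apply hd
      refine ⟨k, ?_⟩
      rw [div_eq_iff hq0] at hk
      have : (a : ℝ) = ((q : ℤ) * k : ℤ) := by
        rw [hk]
        push_cast
        ring
      exact_mod_cast this
    have h2 : (e ((a : ℝ) / q)) ^ q = 1 := by
      rw [← e_mul_nat, div_mul_cancel₀ _ hq0]
      exact e_int a
    rw [geom_sum_eq hne, h2, sub_self, zero_div, mul_zero]

/-- **Wall's theorem** in terms of exponential sums -/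
theorem wall {b : ℕ} (hb : 2 ≤ b) (β : ℝ)
    (hβ : ∀ m : ℤ, m ≠ 0 → Tendsto (fun N : ℕ => (1 / (N : ℂ)) * ∑ n ∈ range N, e ((m : ℝ) * ((b : ℝ) ^ n * β))) atTop (𝓝 0))
    {q : ℕ} (hq : 0 < q) :
    Tendsto (fun N : ℕ => (1 / (N : ℂ)) * ∑ n ∈ range N, e ((b : ℝ) ^ n * β / q)) atTop (𝓝 0) := by
  classical
  have hq0 : (0 : ℝ) < q := by exact_mod_cast hq
  -- the averages
  obtain ⟨A, hA⟩ : ∃ A : ℕ → ℕ → ℂ, ∀ K n, A K n = ∑ k ∈ range K, e ((b : ℝ) ^ (n + k) * β / q) := ⟨_, fun _ _ => rfl⟩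
  -- the mean of ‖A K n‖²
  have hG : ∀ K : ℕ, 0 < K → ∀ᶠ N : ℕ in atTop, ∑ n ∈ range N, ‖A K n‖ ^ 2 ≤ (2 * q * K) * N := by
    intro K hK
    have hK0 : (0 : ℝ) < K := by exact_mod_cast hK
    obtain ⟨G, hGd⟩ : ∃ G : ℕ → ℂ, ∀ n, G n = ∑ k ∈ range K, ∑ l ∈ range K, ∑ j ∈ range q,
        e ((((b : ℤ) ^ k - (b : ℤ) ^ l : ℤ) : ℝ) * ((b : ℝ) ^ n * β + j) / q) := ⟨_, fun _ => rfl⟩
    have e1' : ∀ n, ‖A K n‖ ^ 2 ≤ (G n).re := by
      intro n
      have e2 : G n = ((∑ j ∈ range q, ‖∑ k ∈ range K, e ((b : ℝ) ^ k * ((b : ℝ) ^ n * β + j) / q)‖ ^ 2 : ℝ) : ℂ) := by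
        rw [hGd, Complex.ofReal_sum]
        have e3 : ∀ j ∈ range q, ((‖∑ k ∈ range K, e ((b : ℝ) ^ k * ((b : ℝ) ^ n * β + j) / q)‖ ^ 2 : ℝ) : ℂ) =
            ∑ k ∈ range K, ∑ l ∈ range K, e ((((b : ℤ) ^ k - (b : ℤ) ^ l : ℤ) : ℝ) * ((b : ℝ) ^ n * β + j) / q) := by
          intro j _
          rw [← Complex.normSq_eq_norm_sq, ← Complex.mul_conj, map_sum, sum_mul_sum]
          refine sum_congr rfl fun k _ => sum_congr rfl fun l _ => ?_
          rw [← e_neg, ← e_add]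
          congr 1
          push_cast
          ring
        rw [sum_congr rfl e3]
        have e9 : ∀ k ∈ range K, (∑ l ∈ range K, ∑ j ∈ range q, e ((((b : ℤ) ^ k - (b : ℤ) ^ l : ℤ) : ℝ) * ((b : ℝ) ^ n * β + j) / q)) =
            ∑ j ∈ range q, ∑ l ∈ range K, e ((((b : ℤ) ^ k - (b : ℤ) ^ l : ℤ) : ℝ) * ((b : ℝ) ^ n * β + j) / q) := fun k _ => sum_comm
        rw [sum_congr rfl e9]
        exact sum_comm
      rw [e2, Complex.ofReal_re]
      have e4 : ‖A K n‖ ^ 2 = ‖∑ k ∈ range K, e ((b : ℝ) ^ k * ((b : ℝ) ^ n * β + ((0 : ℕ) : ℝ)) / q)‖ ^ 2 := by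
        rw [hA]
        congr 2
        refine sum_congr rfl fun k _ => ?_
        congr 1
        push_cast
        rw [pow_add]
        ring
      rw [e4]
      exact single_le_sum (f := fun j : ℕ => ‖∑ k ∈ range K, e ((b : ℝ) ^ k * ((b : ℝ) ^ n * β + (j : ℝ)) / q)‖ ^ 2)
        (fun j _ => by positivity) (mem_range.2 hq)
    have e5 : Tendsto (fun N : ℕ => (1 / (N : ℂ)) * ∑ n ∈ range N, G n) atTop (𝓝 (∑ k ∈ range K, ∑ l ∈ range K, if k = l then (q : ℂ) else 0)) := by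
      have e6 : ∀ N : ℕ, (1 / (N : ℂ)) * ∑ n ∈ range N, G n = ∑ k ∈ range K, ∑ l ∈ range K,
          (1 / (N : ℂ)) * ∑ n ∈ range N, ∑ j ∈ range q, e ((((b : ℤ) ^ k - (b : ℤ) ^ l : ℤ) : ℝ) * ((b : ℝ) ^ n * β + j) / q) := by
        intro N
        simp only [hGd]
        rw [sum_comm, mul_sum]
        refine sum_congr rfl fun k _ => ?_
        rw [← mul_sum]
        congr 1
        exact sum_comm
      simp only [e6]
      refine tendsto_finsetSum _ fun k _ => tendsto_finsetSum _ fun l _ => ?_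
      simp only [full hq]
      split_ifs with h1 h2 h2
      · subst h2
        simp only [sub_self, Int.zero_ediv, Int.cast_zero, zero_mul, e_zero, mul_one]
        refine Tendsto.congr' ?_ tendsto_const_nhds
        filter_upwards [eventually_gt_atTop 0] with N hN
        have : (N : ℂ) ≠ 0 := by exact_mod_cast hN.ne'
        rw [sum_const, card_range, nsmul_eq_mul]
        field_simp
      · have h3 : ((b : ℤ) ^ k - (b : ℤ) ^ l) / (q : ℤ) ≠ 0 := by
          intro h4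
          obtain ⟨m, hm⟩ := h1
          rw [hm, Int.mul_ediv_cancel_left m (by exact_mod_cast hq.ne')] at h4
          rw [h4, mul_zero, sub_eq_zero] at hm
          apply h2
          have : (b : ℕ) ^ k = b ^ l := by exact_mod_cast hm
          exact Nat.pow_right_injective hb this
        have h4 := (hβ _ h3).const_mul (q : ℂ)
        rw [mul_zero] at h4
        refine h4.congr fun N => ?_
        rw [← mul_sum]
        ring
      · exfalso
        subst h2
        exact h1 (by simp)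
      · simp
    have e7 : (∑ k ∈ range K, ∑ l ∈ range K, if k = l then (q : ℂ) else 0) = ((q * K : ℝ) : ℂ) := by
      have : ∀ k ∈ range K, (∑ l ∈ range K, if k = l then (q : ℂ) else 0) = q := by
        intro k hk
        rw [sum_ite_eq, if_pos hk]
      rw [sum_congr rfl this, sum_const, card_range, nsmul_eq_mul]
      push_cast
      ring
    rw [e7] at e5
    have e8 := (Complex.continuous_re.tendsto _).comp e5
    rw [Complex.ofReal_re] at e8
    have e9 : (q * K : ℝ) < 2 * q * K := by nlinarith [mul_pos hq0 hK0]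
    filter_upwards [e8.eventually_le_const e9, eventually_gt_atTop 0] with N hN hN0
    have hNr : (0 : ℝ) < N := by exact_mod_cast hN0
    have e10 : ((1 / (N : ℂ)) * ∑ n ∈ range N, G n).re = (1 / (N : ℝ)) * ∑ n ∈ range N, (G n).re := by
      have : (1 / (N : ℂ)) = ((1 / (N : ℝ) : ℝ) : ℂ) := by push_cast; ring
      rw [this, Complex.re_ofReal_mul, Complex.re_sum]
    have hN' : (1 / (N : ℝ)) * ∑ n ∈ range N, (G n).re ≤ 2 * q * K := by
      rw [← e10]
      exact hN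
    rw [one_div, inv_mul_le_iff₀ hNr] at hN'
    calc ∑ n ∈ range N, ‖A K n‖ ^ 2 ≤ ∑ n ∈ range N, (G n).re := sum_le_sum fun n _ => e1' n
      _ ≤ N * (2 * q * K) := hN'
      _ = (2 * q * K) * N := by ring
  -- van der Corput
  have hV : ∀ K : ℕ, 0 < K → ∀ N : ℕ, K * ‖∑ n ∈ range N, e ((b : ℝ) ^ n * β / q)‖ ≤ ∑ n ∈ range N, ‖A K n‖ + 2 * K * K := by
    intro K hK N
    obtain ⟨a, ha⟩ : ∃ a : ℕ → ℂ, ∀ n, a n = e ((b : ℝ) ^ n * β / q) := ⟨_, fun _ => rfl⟩
    have ha1 : ∀ n, ‖a n‖ ≤ 1 := fun n => by rw [ha, norm_e]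
    have h1 : ∀ k, ‖∑ n ∈ range N, a (n + k) - ∑ n ∈ range N, a n‖ ≤ 2 * k := by
      intro k
      have h2 : ∑ n ∈ range N, a (n + k) = ∑ n ∈ range (N + k), a n - ∑ n ∈ range k, a n := by
        rw [add_comm N k, sum_range_add, add_sub_cancel_left]
        exact sum_congr rfl fun n _ => by rw [add_comm]
      have h3 : ∑ n ∈ range (N + k), a n = ∑ n ∈ range N, a n + ∑ n ∈ range k, a (N + n) := sum_range_add _ _ _
      rw [h2, h3]
      have h4 : ∑ n ∈ range N, a n + ∑ n ∈ range k, a (N + n) - ∑ n ∈ range k, a n - ∑ n ∈ range N, a n =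
          ∑ n ∈ range k, a (N + n) - ∑ n ∈ range k, a n := by ring
      rw [h4]
      have h5 : ∀ f : ℕ → ℂ, (∀ n, ‖f n‖ ≤ 1) → ‖∑ n ∈ range k, f n‖ ≤ k := by
        intro f hf
        refine (norm_sum_le _ _).trans ((sum_le_sum fun n _ => hf n).trans ?_)
        rw [sum_const, card_range, nsmul_eq_mul, mul_one]
      refine (norm_sub_le _ _).trans ?_
      have h6 := h5 (fun n => a (N + n)) fun n => ha1 _
      have h7 := h5 a ha1
      linarith
    have h2 : (K : ℂ) * ∑ n ∈ range N, a n = ∑ n ∈ range N, A K n - ∑ k ∈ range K, (∑ n ∈ range N, a (n + k) - ∑ n ∈ range N, a n) := by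
      rw [sum_sub_distrib, sum_const, card_range, nsmul_eq_mul]
      have h3 : ∑ n ∈ range N, A K n = ∑ k ∈ range K, ∑ n ∈ range N, a (n + k) := by
        rw [sum_comm]
        refine sum_congr rfl fun n _ => ?_
        rw [hA]
        exact sum_congr rfl fun k _ => (ha _).symm
      rw [h3]
      ring
    have h3 : (K : ℝ) * ‖∑ n ∈ range N, e ((b : ℝ) ^ n * β / q)‖ = ‖(K : ℂ) * ∑ n ∈ range N, a n‖ := by
      rw [norm_mul, Complex.norm_natCast]
      simp only [ha]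
    rw [h3, h2]
    refine (norm_sub_le _ _).trans (add_le_add (norm_sum_le _ _) ?_)
    refine (norm_sum_le _ _).trans ?_
    have h4 : ∀ k ∈ range K, ‖∑ n ∈ range N, a (n + k) - ∑ n ∈ range N, a n‖ ≤ 2 * K := by
      intro k hk
      have h5 : (k : ℝ) ≤ K := by exact_mod_cast (mem_range.1 hk).le
      exact (h1 k).trans (by linarith)
    refine (sum_le_sum h4).trans ?_
    rw [sum_const, card_range, nsmul_eq_mul]
    linarith
  -- conclusion
  rw [Metric.tendsto_atTop]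
  intro ε hε
  obtain ⟨ε', hε'⟩ : ∃ ε' : ℝ, ε' = ε / 3 := ⟨_, rfl⟩
  have hε0 : 0 < ε' := by rw [hε']; positivity
  obtain ⟨K₀, hK₀⟩ := exists_nat_ge (2 * q / ε' ^ 2)
  obtain ⟨K, hKd⟩ : ∃ K : ℕ, K = K₀ + 1 := ⟨_, rfl⟩
  have hK : 0 < K := by omega
  have hKr : (0 : ℝ) < K := by exact_mod_cast hK
  have hKq : 2 * (q : ℝ) ≤ ε' ^ 2 * K := by
    have h1 : (K₀ : ℝ) ≤ K := by
      rw [hKd]
      push_cast
      linarith
    have h2 := (hK₀.trans h1)
    rw [div_le_iff₀ (by positivity)] at h2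
    linarith
  obtain ⟨N₀, hN₀⟩ := eventually_atTop.1 (hG K hK)
  obtain ⟨N₁, hN₁⟩ := exists_nat_ge (2 * K / ε')
  refine ⟨N₀ + N₁ + 1, fun N hN => ?_⟩
  have h1 := hN₀ N (by omega)
  have hNr : (0 : ℝ) < N := by exact_mod_cast (by omega : 0 < N)
  have hN1 : 2 * (K : ℝ) ≤ ε' * N := by
    have h2 : (N₁ : ℝ) ≤ N := by exact_mod_cast (by omega : N₁ ≤ N)
    have h3 := hN₁.trans h2
    rw [div_le_iff₀ hε0] at h3
    linarith
  have h2 : ∑ n ∈ range N, ‖A K n‖ ≤ ε' * K * N := by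
    have h3 : ∀ n ∈ range N, ‖A K n‖ ≤ ε' * K / 2 + ‖A K n‖ ^ 2 / (2 * ε' * K) := by
      intro n _
      have h4 : 0 < 2 * ε' * K := by positivity
      have h5 : ε' * K / 2 + ‖A K n‖ ^ 2 / (2 * ε' * K) - ‖A K n‖ = (ε' * K - ‖A K n‖) ^ 2 / (2 * ε' * K) := by
        field_simp
        ring
      have h6 : 0 ≤ (ε' * K - ‖A K n‖) ^ 2 / (2 * ε' * K) := by positivity
      linarith
    refine (sum_le_sum h3).trans ?_
    rw [sum_add_distrib, sum_const, card_range, nsmul_eq_mul, ← sum_div]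
    have h7 : (∑ n ∈ range N, ‖A K n‖ ^ 2) / (2 * ε' * K) ≤ ε' * K * N / 2 := by
      rw [div_le_iff₀ (by positivity)]
      calc ∑ n ∈ range N, ‖A K n‖ ^ 2 ≤ 2 * q * K * N := h1
        _ ≤ (ε' ^ 2 * K) * K * N := by gcongr
        _ = ε' * K * N / 2 * (2 * ε' * K) := by ring
    nlinarith
  have h3 := hV K hK N
  have h4 : ‖∑ n ∈ range N, e ((b : ℝ) ^ n * β / q)‖ ≤ 2 * ε' * N := by
    have h5 : (K : ℝ) * ‖∑ n ∈ range N, e ((b : ℝ) ^ n * β / q)‖ ≤ K * (2 * ε' * N) := by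
      calc (K : ℝ) * ‖∑ n ∈ range N, e ((b : ℝ) ^ n * β / q)‖ ≤ ∑ n ∈ range N, ‖A K n‖ + 2 * K * K := h3
        _ ≤ ε' * K * N + (ε' * N) * K := by gcongr
        _ = K * (2 * ε' * N) := by ring
    exact le_of_mul_le_mul_left h5 hKr
  rw [dist_zero_right, norm_mul, norm_div, norm_one, Complex.norm_natCast, one_div, inv_mul_lt_iff₀ hNr]
  calc ‖∑ n ∈ range N, e ((b : ℝ) ^ n * β / q)‖ ≤ 2 * ε' * N := h4
    _ < N * ε := by
      rw [hε']
      nlinarith

variable {ι : Type} [Fintype ι]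

/-- `α` is normal to the base `b` -/
def Normal (b : ℕ) (α : ι → ℝ) : Prop :=
  ∀ h : ι → ℤ, h ≠ 0 → Tendsto (fun N : ℕ => (1 / (N : ℂ)) * ∑ n ∈ range N, e (∑ i, (h i : ℝ) * ((b : ℝ) ^ n * α i))) atTop (𝓝 0)

/-- **E3.** -/
theorem normal {b : ℕ} (hb : 2 ≤ b) {α : ι → ℝ} (hα : Normal b α) :
    Equi 1 (fun n i => ⌊(b : ℝ) ^ n * α i⌋) := by
  refine equi_real (fun n i => (b : ℝ) ^ n * α i) fun q hq _ h hh => ?_
  have h1 := wall hb (∑ i, (h i : ℝ) * α i) (by
    intro m hm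
    have h2 := hα (fun i => m * h i) (by
      intro h3
      apply hh
      funext i
      have h4 := congrFun h3 i
      simp only [Pi.zero_apply, mul_eq_zero] at h4
      rcases h4 with h4 | h4
      · exact absurd h4 hm
      · exact h4)
    refine h2.congr fun N => ?_
    congr 1
    refine sum_congr rfl fun n _ => ?_
    congr 1
    rw [mul_sum, mul_sum]
    refine sum_congr rfl fun i _ => ?_
    push_cast
    ring) hq
  refine h1.congr fun N => ?_
  congr 1
  refine sum_congr rfl fun n _ => ?_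
  congr 1
  rw [mul_sum, sum_div]
  refine sum_congr rfl fun i _ => ?_
  ring

end Pool.Agent.HP25.TW
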