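import Pool.Agent.HP25.TW.D

/-!
# Metric sequences for measures with Fourier decay (helper25)
-/

set_option autoImplicit false
set_option linter.unusedSectionVars false
set_option linter.unusedVariables false

namespace Pool.Agent.HP25.TW

open MeasureTheory ProbabilityTheory Finset Filter Topology
open Pool.Agent.N24.RW (ProNull)
open Pool.Agent.N24.KM (Rarely e t_SEP)

namespace Ae

variable {p : ℕ}

/-- the integral part of the `p`-th root -/
def cr (p N : ℕ) : ℕ := Nat.findGreatest (fun m => m ^ p ≤ N) N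

lemma cr_le (hp : 1 ≤ p) (N : ℕ) : cr p N ^ p ≤ N := by
  have h := Nat.findGreatest_spec (P := fun m => m ^ p ≤ N) (m := 0) (n := N) (Nat.zero_le _)
    (by rw [zero_pow (by omega)]; exact Nat.zero_le _)
  exact h

lemma le_cr (hp : 1 ≤ p) {b N : ℕ} (h : b ^ p ≤ N) : b ≤ cr p N :=
  Nat.le_findGreatest ((Nat.le_self_pow (by omega) b).trans h) h

lemma lt_cr (hp : 1 ≤ p) (N : ℕ) : N < (cr p N + 1) ^ p := by
  by_contra h
  have := le_cr hp (not_lt.1 h)
  omega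

lemma cr_tendsto (hp : 1 ≤ p) : Tendsto (cr p) atTop atTop := by
  refine tendsto_atTop.2 fun b => ?_
  filter_upwards [eventually_ge_atTop (b ^ p)] with N hN
  exact le_cr hp hN

lemma step {S : ℕ → ℂ} (hS : ∀ n, ‖S (n + 1) - S n‖ ≤ 1) {m N : ℕ} (h : m ≤ N) :
    ‖S N‖ ≤ ‖S m‖ + ((N : ℝ) - m) := by
  induction N, h using Nat.le_induction with
  | base => simp
  | succ N h ih =>
    have h1 : ‖S (N + 1)‖ ≤ ‖S (N + 1) - S N‖ + ‖S N‖ := by
      have := norm_add_le (S (N + 1) - S N) (S N)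
      rwa [sub_add_cancel] at this
    have h2 := hS N
    push_cast
    linarith

lemma det (hp : 1 ≤ p) {S : ℕ → ℂ} (hS : ∀ n, ‖S (n + 1) - S n‖ ≤ 1)
    (h : Tendsto (fun k : ℕ => ‖S (k ^ p)‖ / ((k : ℝ) ^ p)) atTop (𝓝 0)) :
    Tendsto (fun N : ℕ => ‖S N‖ / (N : ℝ)) atTop (𝓝 0) := by
  have h1 : Tendsto (fun k : ℕ => ‖S (k ^ p)‖ / ((k : ℝ) ^ p) + ((1 + 1 / (k : ℝ)) ^ p - 1)) atTop (𝓝 0) := by
    have h2 : Tendsto (fun k : ℕ => (1 + 1 / (k : ℝ)) ^ p - 1) atTop (𝓝 0) := by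
      have h3 : Tendsto (fun k : ℕ => 1 / (k : ℝ)) atTop (𝓝 0) := tendsto_one_div_atTop_nhds_zero_nat
      have h4 := ((h3.const_add 1).pow p).sub_const 1
      simpa using h4
    have h3 := h.add h2
    rwa [add_zero] at h3
  have h2 := h1.comp (cr_tendsto hp)
  refine squeeze_zero' (Eventually.of_forall fun N => by positivity) ?_ h2
  filter_upwards [eventually_ge_atTop 1] with N hN
  show ‖S N‖ / (N : ℝ) ≤ ‖S (cr p N ^ p)‖ / ((cr p N : ℝ) ^ p) + ((1 + 1 / (cr p N : ℝ)) ^ p - 1)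
  have h3 : 1 ≤ cr p N := le_cr hp (by simpa using hN)
  have h4 := cr_le hp N
  have h5 := lt_cr hp N
  have h6 := step hS h4
  obtain ⟨m, hm⟩ : ∃ m, m = cr p N := ⟨_, rfl⟩
  rw [← hm] at h3 h4 h5 h6 ⊢
  have hm1 : (1 : ℝ) ≤ m := by exact_mod_cast h3
  have hm0 : (0 : ℝ) < m := by linarith
  have hm4 : (m : ℝ) ^ p ≤ N := by exact_mod_cast h4
  have hm5 : (N : ℝ) ≤ ((m : ℝ) + 1) ^ p := by exact_mod_cast h5.le
  have hN0 : (0 : ℝ) < N := by exact_mod_cast hN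
  have hmp : (0 : ℝ) < (m : ℝ) ^ p := by positivity
  push_cast at h6
  have h7 : (1 + 1 / (m : ℝ)) ^ p = ((m : ℝ) + 1) ^ p / (m : ℝ) ^ p := by
    rw [← div_pow]
    congr 1
    field_simp
  have h8 : ‖S N‖ ≤ ‖S (m ^ p)‖ + (((m : ℝ) + 1) ^ p - (m : ℝ) ^ p) := by linarith
  have h9 : ‖S (m ^ p)‖ / (m : ℝ) ^ p + ((1 + 1 / (m : ℝ)) ^ p - 1) =
      (‖S (m ^ p)‖ + (((m : ℝ) + 1) ^ p - (m : ℝ) ^ p)) / (m : ℝ) ^ p := by
    rw [h7]
    field_simp
  rw [h9]
  have h10 : 0 ≤ ‖S (m ^ p)‖ + (((m : ℝ) + 1) ^ p - (m : ℝ) ^ p) := by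
    have : (m : ℝ) ^ p ≤ ((m : ℝ) + 1) ^ p := by gcongr; linarith
    have := norm_nonneg (S (m ^ p))
    linarith
  calc ‖S N‖ / (N : ℝ) ≤ (‖S (m ^ p)‖ + (((m : ℝ) + 1) ^ p - (m : ℝ) ^ p)) / N := by gcongr
    _ ≤ (‖S (m ^ p)‖ + (((m : ℝ) + 1) ^ p - (m : ℝ) ^ p)) / (m : ℝ) ^ p := by gcongr

end Ae

open Ae

/-- almost everywhere convergence from the second moment -/
theorem ae_mean {X : Type} [MeasurableSpace X] (μ : Measure X) [IsFiniteMeasure μ]
    (u : ℕ → X → ℂ) (C δ : ℝ) (hδ : 0 < δ) (hu : ∀ n, Measurable (u n)) (hb : ∀ n x, ‖u n x‖ ≤ 1)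
    (hC : ∀ N : ℕ, 1 ≤ N → ∫ x, ‖∑ n ∈ range N, u n x‖ ^ 2 ∂μ ≤ C * (N : ℝ) ^ (2 - δ)) :
    ∀ᵐ x ∂μ, Tendsto (fun N : ℕ => (1 / (N : ℂ)) * ∑ n ∈ range N, u n x) atTop (𝓝 0) := by
  obtain ⟨p₀, hp₀⟩ := exists_nat_ge (2 / δ)
  obtain ⟨p, hpd⟩ : ∃ p, p = p₀ + 1 := ⟨_, rfl⟩
  have hp : 1 ≤ p := by omega
  have hpδ : 2 ≤ p * δ := by
    have h1 : (p₀ : ℝ) ≤ p := by
      rw [hpd]
      push_cast
      linarith
    have h2 := hp₀.trans h1
    rwa [div_le_iff₀ hδ] at h2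
  obtain ⟨S, hS⟩ : ∃ S : ℕ → X → ℂ, ∀ N x, S N x = ∑ n ∈ range N, u n x :=
    ⟨fun N x => ∑ n ∈ range N, u n x, fun _ _ => rfl⟩
  have hSm : ∀ N, Measurable (S N) := by
    intro N
    have : S N = fun x => ∑ n ∈ range N, u n x := funext fun x => hS N x
    rw [this]
    exact Finset.measurable_sum _ fun n _ => hu n
  have hSb : ∀ N x, ‖S N x‖ ≤ N := by
    intro N x
    rw [hS]
    refine (norm_sum_le _ _).trans ((sum_le_sum fun n _ => hb n x).trans ?_)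
    simp
  have hSs : ∀ x n, ‖S (n + 1) x - S n x‖ ≤ 1 := by
    intro x n
    rw [hS, hS, sum_range_succ, add_sub_cancel_left]
    exact hb n x
  obtain ⟨v, hv⟩ : ∃ v : ℕ → X → ℝ, ∀ k x,
      v k x = ‖S ((k + 1) ^ p) x‖ ^ 2 / (((k + 1 : ℕ) : ℝ) ^ p) ^ 2 := ⟨_, fun _ _ => rfl⟩
  have hvm : ∀ k, Measurable (v k) := by
    intro k
    have : v k = fun x => ‖S ((k + 1) ^ p) x‖ ^ 2 / (((k + 1 : ℕ) : ℝ) ^ p) ^ 2 :=
      funext fun x => hv k x
    rw [this]
    exact ((hSm _).norm.pow_const 2).div_const _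
  have hv0 : ∀ k x, 0 ≤ v k x := fun k x => by rw [hv]; positivity
  have h1 : ∀ k, ∫⁻ x, ENNReal.ofReal (v k x) ∂μ ≤
      ENNReal.ofReal (|C| * (1 / ((k + 1 : ℕ) : ℝ) ^ 2)) := by
    intro k
    have hi : Integrable (fun x => ‖S ((k + 1) ^ p) x‖ ^ 2) μ := by
      refine Integrable.of_bound ((hSm _).norm.pow_const 2).aestronglyMeasurable
        ((((k + 1) ^ p : ℕ) : ℝ) ^ 2) (Eventually.of_forall fun x => ?_)
      rw [Real.norm_of_nonneg (by positivity)]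
      exact pow_le_pow_left₀ (norm_nonneg _) (hSb _ x) 2
    have hi2 : Integrable (v k) μ := by
      have : v k = fun x => ‖S ((k + 1) ^ p) x‖ ^ 2 / (((k + 1 : ℕ) : ℝ) ^ p) ^ 2 :=
        funext fun x => hv k x
      rw [this]
      exact hi.div_const _
    rw [← ofReal_integral_eq_lintegral_ofReal hi2 (Eventually.of_forall fun x => hv0 k x)]
    apply ENNReal.ofReal_le_ofReal
    rw [integral_congr_ae (Eventually.of_forall fun x => hv k x), integral_div]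
    obtain ⟨y, hy⟩ : ∃ y : ℝ, y = ((k + 1 : ℕ) : ℝ) := ⟨_, rfl⟩
    have hy1 : (1 : ℝ) ≤ y := by
      rw [hy]
      push_cast
      have : (0 : ℝ) ≤ k := Nat.cast_nonneg k
      linarith
    have hy0 : 0 < y := by linarith
    have h2 := hC ((k + 1) ^ p) (Nat.one_le_pow _ _ (by omega))
    simp only [← hS] at h2
    have h3 : (((k + 1) ^ p : ℕ) : ℝ) = y ^ p := by rw [hy]; push_cast; ring
    rw [h3] at h2
    rw [← hy, div_le_iff₀ (by positivity)]
    refine h2.trans ?_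
    have h4 : (y ^ p) ^ (2 - δ) ≤ 1 / y ^ 2 * (y ^ p) ^ 2 := by
      have e1 : (y ^ p) ^ (2 - δ) = (y ^ p) ^ 2 * y ^ (-(p * δ)) := by
        have hyp : 0 < y ^ p := by positivity
        rw [sub_eq_add_neg, Real.rpow_add hyp, Real.rpow_two]
        congr 1
        rw [← Real.rpow_natCast y p, ← Real.rpow_mul hy0.le]
        congr 1
        ring
      have e2 : y ^ (-(p * δ)) ≤ 1 / y ^ 2 := by
        have e3 : y ^ (-(p * δ)) ≤ y ^ (-2 : ℝ) := Real.rpow_le_rpow_of_exponent_le hy1 (by linarith)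
        have e4 : y ^ (-2 : ℝ) = 1 / y ^ 2 := by
          rw [Real.rpow_neg hy0.le, Real.rpow_two, one_div]
        rw [← e4]
        exact e3
      rw [e1, mul_comm]
      exact mul_le_mul_of_nonneg_right e2 (by positivity)
    calc C * (y ^ p) ^ (2 - δ) ≤ |C| * (y ^ p) ^ (2 - δ) := mul_le_mul_of_nonneg_right (le_abs_self C) (by positivity)
      _ ≤ |C| * (1 / y ^ 2 * (y ^ p) ^ 2) := mul_le_mul_of_nonneg_left h4 (abs_nonneg _)
      _ = |C| * (1 / y ^ 2) * (y ^ p) ^ 2 := by ring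
  have hsum : Summable (fun k : ℕ => |C| * (1 / ((k + 1 : ℕ) : ℝ) ^ 2)) := by
    refine Summable.mul_left _ ?_
    exact (summable_nat_add_iff (f := fun k : ℕ => 1 / (k : ℝ) ^ 2) 1).2
      (Real.summable_one_div_nat_pow.2 (by norm_num))
  have h2 : ∫⁻ x, ∑' k, ENNReal.ofReal (v k x) ∂μ ≠ ⊤ := by
    rw [lintegral_tsum fun k => (hvm k).ennreal_ofReal.aemeasurable]
    refine ne_top_of_le_ne_top ?_ (ENNReal.tsum_le_tsum h1)
    rw [← ENNReal.ofReal_tsum_of_nonneg (fun k => by positivity) hsum]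
    exact ENNReal.ofReal_ne_top
  have h3 := ae_lt_top (Measurable.tsum fun k => (hvm k).ennreal_ofReal) h2
  filter_upwards [h3] with x hx
  have h4 := ENNReal.tendsto_atTop_zero_of_tsum_ne_top hx.ne
  have h5 : Tendsto (fun k => v k x) atTop (𝓝 0) := by
    have h6 := (ENNReal.tendsto_toReal ENNReal.zero_ne_top).comp h4
    refine (h6.congr fun k => ?_)
    exact ENNReal.toReal_ofReal (hv0 k x)
  have h6 : Tendsto (fun k : ℕ => ‖S (k ^ p) x‖ / ((k : ℝ) ^ p)) atTop (𝓝 0) := by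
    rw [← tendsto_add_atTop_iff_nat 1]
    have h7 := (Real.continuous_sqrt.tendsto 0).comp h5
    rw [Real.sqrt_zero] at h7
    refine h7.congr fun k => ?_
    show Real.sqrt (v k x) = _
    rw [hv, Real.sqrt_div (by positivity), Real.sqrt_sq (norm_nonneg _),
      Real.sqrt_sq (by positivity)]
  have h7 := det hp (S := fun N => S N x) (fun n => hSs x n) h6
  rw [tendsto_zero_iff_norm_tendsto_zero]
  refine h7.congr fun N => ?_
  rw [norm_mul, ← hS, norm_div, norm_one, Complex.norm_natCast]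
  ring

variable {ι : Type} [Fintype ι]

/-- power decay of the Fourier transform -/
def Decay (ν : Measure (ι → ℝ)) : Prop :=
  ∃ C δ : ℝ, 0 < δ ∧ ∀ ξ : ι → ℝ, ξ ≠ 0 → ‖∫ α, e (∑ i, ξ i * α i) ∂ν‖ ≤ C * ‖ξ‖ ^ (-δ)

lemma decay_one {ν : Measure (ι → ℝ)} [IsFiniteMeasure ν] (h : Decay ν) :
    ∃ C δ : ℝ, 0 ≤ C ∧ 0 < δ ∧ δ ≤ 1 ∧ ∀ ξ : ι → ℝ, ξ ≠ 0 → ‖∫ α, e (∑ i, ξ i * α i) ∂ν‖ ≤ C * ‖ξ‖ ^ (-δ) := by
  obtain ⟨C, δ, hδ, h1⟩ := h
  refine ⟨max |C| (ν.real Set.univ), min δ 1, le_max_of_le_left (abs_nonneg _), lt_min hδ one_pos, min_le_right _ _, fun ξ hξ => ?_⟩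
  have hn : 0 < ‖ξ‖ := norm_pos_iff.2 hξ
  rcases le_total 1 ‖ξ‖ with h2 | h2
  · refine (h1 ξ hξ).trans ?_
    have h3 : ‖ξ‖ ^ (-δ) ≤ ‖ξ‖ ^ (-min δ 1) := Real.rpow_le_rpow_of_exponent_le h2 (by
      have := min_le_left δ 1
      linarith)
    calc C * ‖ξ‖ ^ (-δ) ≤ |C| * ‖ξ‖ ^ (-δ) := mul_le_mul_of_nonneg_right (le_abs_self C) (by positivity)
      _ ≤ max |C| (ν.real Set.univ) * ‖ξ‖ ^ (-min δ 1) := by
        apply mul_le_mul (le_max_left _ _) h3 (by positivity)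
        exact le_max_of_le_left (abs_nonneg _)
  · have h3 : ‖∫ α, e (∑ i, ξ i * α i) ∂ν‖ ≤ ν.real Set.univ := by
      refine (norm_integral_le_of_norm_le_const (C := 1) (ae_of_all _ fun ω => (norm_e _).le)).trans ?_
      rw [one_mul]
    have h4 : (1 : ℝ) ≤ ‖ξ‖ ^ (-min δ 1) := Real.one_le_rpow_of_pos_of_le_one_of_nonpos hn h2 (by
      have := lt_min hδ one_pos
      linarith)
    calc ‖∫ α, e (∑ i, ξ i * α i) ∂ν‖ ≤ ν.real Set.univ := h3
      _ ≤ max |C| (ν.real Set.univ) * 1 := by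
        rw [mul_one]
        exact le_max_right _ _
      _ ≤ _ := mul_le_mul_of_nonneg_left h4 (le_max_of_le_left (abs_nonneg _))

lemma meas_e : Measurable e := by
  unfold e
  fun_prop

/-- the exponential sums of metric sequences -/
theorem weyl {ν : Measure (ι → ℝ)} [IsFiniteMeasure ν] (h : Decay ν) (a : ι → ℕ → ℝ) {δ₀ : ℝ} (hδ₀ : 0 < δ₀)
    (ha : ∀ i m n, m ≠ n → δ₀ ≤ |a i m - a i n|) (β : ι → ℕ → ℝ) (t : ι → ℝ) (ht : t ≠ 0) :
    ∀ᵐ α ∂ν, Tendsto (fun N : ℕ => (1 / (N : ℂ)) * ∑ n ∈ range N, e (∑ i, t i * (a i n * α i + β i n))) atTop (𝓝 0) := by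
  classical
  obtain ⟨C, δ, hC, hδ, hδ1, h1⟩ := decay_one h
  obtain ⟨i₀, hi₀⟩ : ∃ i, t i ≠ 0 := by
    by_contra hc
    push Not at hc
    exact ht (funext hc)
  have hti : 0 < |t i₀| := abs_pos.2 hi₀
  have hum : ∀ n, Measurable fun α : ι → ℝ => e (∑ i, t i * (a i n * α i + β i n)) := by
    intro n
    refine meas_e.comp ?_
    fun_prop
  have hcor : ∀ n m, n ≠ m → ‖∫ α, e (∑ i, t i * (a i n * α i + β i n)) * (starRingEnd ℂ) (e (∑ i, t i * (a i m * α i + β i m))) ∂ν‖ ≤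
      C * |t i₀| ^ (-δ) * |a i₀ m - a i₀ n| ^ (-δ) := by
    intro n m hnm
    have e1 : ∀ α : ι → ℝ, e (∑ i, t i * (a i n * α i + β i n)) * (starRingEnd ℂ) (e (∑ i, t i * (a i m * α i + β i m))) =
        e (∑ i, t i * (β i n - β i m)) * e (∑ i, (t i * (a i n - a i m)) * α i) := by
      intro α
      rw [← e_neg, ← e_add, ← e_add]
      congr 1
      rw [← sum_add_distrib, ← sum_neg_distrib, ← sum_add_distrib]
      refine sum_congr rfl fun i _ => ?_
      ring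
    rw [integral_congr_ae (ae_of_all _ e1), integral_const_mul, norm_mul, norm_e, one_mul]
    obtain ⟨ξ, hξ⟩ : ∃ ξ : ι → ℝ, ξ = fun i => t i * (a i n - a i m) := ⟨_, rfl⟩
    have hd : 0 < |a i₀ m - a i₀ n| := lt_of_lt_of_le hδ₀ (ha i₀ m n hnm.symm)
    have hξ0 : |t i₀| * |a i₀ m - a i₀ n| ≤ ‖ξ‖ := by
      have h2 := norm_le_pi_norm ξ i₀
      rw [hξ] at h2
      simp only [Real.norm_eq_abs, abs_mul] at h2
      rw [abs_sub_comm, hξ]
      exact h2
    have hξne : ξ ≠ 0 := by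
      intro h0
      rw [h0, norm_zero] at hξ0
      have := mul_pos hti hd
      linarith
    have h2 := h1 ξ hξne
    rw [hξ] at h2
    refine h2.trans ?_
    rw [← hξ, mul_assoc]
    refine mul_le_mul_of_nonneg_left ?_ hC
    rw [← Real.mul_rpow (abs_nonneg _) (abs_nonneg _)]
    exact Real.rpow_le_rpow_of_nonpos (mul_pos hti hd) hξ0 (by linarith)
  obtain ⟨C₁, hC₁⟩ : ∃ C₁ : ℝ, C₁ = C * |t i₀| ^ (-δ) := ⟨_, rfl⟩
  have hC₁0 : 0 ≤ C₁ := by
    rw [hC₁]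
    positivity
  refine ae_mean ν (fun n α => e (∑ i, t i * (a i n * α i + β i n))) (ν.real Set.univ + C₁ * (1 + 4 / δ₀)) (δ / 2) (by positivity) hum
    (fun n α => (norm_e _).le) fun N hN => ?_
  refine (moment ν _ hum (fun n ω => (norm_e _).le) N).trans ?_
  have hNr : (1 : ℝ) ≤ N := by exact_mod_cast hN
  have hN0 : (0 : ℝ) < N := by linarith
  obtain ⟨T, hT⟩ : ∃ T : ℝ, T = Real.sqrt N := ⟨_, rfl⟩
  have hT1 : 1 ≤ T := by
    rw [hT]
    exact Real.one_le_sqrt.2 hNr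
  have hT0 : 0 < T := by linarith
  have hTT : T * T = N := by
    rw [hT]
    exact Real.mul_self_sqrt hN0.le
  have h2 : ∀ n ∈ range N, ∑ m ∈ range N, ‖∫ α, e (∑ i, t i * (a i n * α i + β i n)) * (starRingEnd ℂ) (e (∑ i, t i * (a i m * α i + β i m))) ∂ν‖ ≤
      ν.real Set.univ + C₁ * ((1 + 4 / δ₀) * T ^ (2 - δ)) := by
    intro n hn
    rw [← add_sum_erase _ _ hn]
    refine add_le_add ?_ ?_
    · refine (norm_integral_le_of_norm_le_const (C := 1) (ae_of_all _ fun ω => ?_)).trans (by rw [one_mul])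
      rw [norm_mul, RCLike.norm_conj, norm_e, one_mul]
    · have h3 : ∀ m ∈ (range N).erase n, ‖∫ α, e (∑ i, t i * (a i n * α i + β i n)) * (starRingEnd ℂ) (e (∑ i, t i * (a i m * α i + β i m))) ∂ν‖ ≤
          C₁ * (T ^ (-δ) + T ^ (1 - δ) * (1 / |a i₀ n - a i₀ m|)) := by
        intro m hm
        have hnm : n ≠ m := (ne_of_mem_erase hm).symm
        refine (hcor n m hnm).trans ?_
        rw [← hC₁]
        refine mul_le_mul_of_nonneg_left ?_ hC₁0
        have hd : 0 < |a i₀ m - a i₀ n| := lt_of_lt_of_le hδ₀ (ha i₀ m n hnm.symm)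
        rw [abs_sub_comm (a i₀ n)]
        obtain ⟨y, hy⟩ : ∃ y, y = |a i₀ m - a i₀ n| := ⟨_, rfl⟩
        rw [← hy] at hd ⊢
        rcases le_total T y with h4 | h4
        · have h5 : y ^ (-δ) ≤ T ^ (-δ) := Real.rpow_le_rpow_of_nonpos hT0 h4 (by linarith)
          have h6 : 0 ≤ T ^ (1 - δ) * (1 / y) := by positivity
          linarith
        · have h5 : y ^ (-δ) ≤ T ^ (1 - δ) * (1 / y) := by
            have h6 : y ^ (-δ) = y ^ (1 - δ) * (1 / y) := by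
              rw [sub_eq_add_neg, Real.rpow_add hd, Real.rpow_one]
              field_simp
            rw [h6]
            have h7 : y ^ (1 - δ) ≤ T ^ (1 - δ) := Real.rpow_le_rpow hd.le h4 (by linarith)
            exact mul_le_mul_of_nonneg_right h7 (by positivity)
          have h6 : 0 ≤ T ^ (-δ) := by positivity
          linarith
      refine (sum_le_sum h3).trans ?_
      rw [← mul_sum, sum_add_distrib, sum_const, nsmul_eq_mul, ← mul_sum]
      refine mul_le_mul_of_nonneg_left ?_ hC₁0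
      have h4 : (((range N).erase n).card : ℝ) * T ^ (-δ) ≤ T ^ (2 - δ) := by
        have h5 : (((range N).erase n).card : ℝ) ≤ N := by
          have := card_le_card (erase_subset n (range N))
          rw [card_range] at this
          exact_mod_cast this
        have h6 : T ^ (2 - δ) = N * T ^ (-δ) := by
          rw [sub_eq_add_neg, Real.rpow_add hT0, Real.rpow_two, sq, hTT]
        rw [h6]
        exact mul_le_mul_of_nonneg_right h5 (by positivity)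
      have h5 : T ^ (1 - δ) * ∑ m ∈ (range N).erase n, (1 / |a i₀ n - a i₀ m|) ≤ 4 / δ₀ * T ^ (2 - δ) := by
        have h6 := t_SEP (fun m => a i₀ m) δ₀ hδ₀ (fun m n hmn => ha i₀ m n hmn) n N
        have h7 : (range N).erase n = (range N).filter (fun m => m ≠ n) := by
          ext m
          simp [and_comm]
        rw [h7]
        have h8 : T ^ (2 - δ) = T ^ (1 - δ) * T := by
          have : (2 - δ) = (1 - δ) + 1 := by ring
          rw [this, Real.rpow_add hT0, Real.rpow_one]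
        rw [h8]
        rw [← hT] at h6
        calc T ^ (1 - δ) * ∑ m ∈ (range N).filter (fun m => m ≠ n), (1 / |a i₀ n - a i₀ m|) ≤ T ^ (1 - δ) * (4 / δ₀ * T) :=
              mul_le_mul_of_nonneg_left h6 (by positivity)
          _ = 4 / δ₀ * (T ^ (1 - δ) * T) := by ring
      linarith
  refine (sum_le_sum h2).trans ?_
  rw [sum_const, card_range, nsmul_eq_mul]
  have h3 : (N : ℝ) ^ (2 - δ / 2) = N * T ^ (2 - δ) := by
    have h4 : T ^ (2 - δ) = (N : ℝ) ^ (1 - δ / 2) := by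
      rw [hT, Real.sqrt_eq_rpow, ← Real.rpow_mul hN0.le]
      congr 1
      ring
    rw [h4]
    have h5 : (2 - δ / 2) = 1 + (1 - δ / 2) := by ring
    rw [h5, Real.rpow_add hN0, Real.rpow_one]
  rw [h3]
  have h4 : 1 ≤ T ^ (2 - δ) := Real.one_le_rpow hT1 (by linarith)
  have h5 : 0 ≤ ν.real Set.univ := measureReal_nonneg
  calc (N : ℝ) * (ν.real Set.univ + C₁ * ((1 + 4 / δ₀) * T ^ (2 - δ)))
      ≤ N * (ν.real Set.univ * T ^ (2 - δ) + C₁ * ((1 + 4 / δ₀) * T ^ (2 - δ))) := by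
        gcongr
        nlinarith
    _ = (ν.real Set.univ + C₁ * (1 + 4 / δ₀)) * (N * T ^ (2 - δ)) := by ring

/-- **E4.** -/
theorem decay {ν : Measure (ι → ℝ)} [IsFiniteMeasure ν] (h : Decay ν) (a : ι → ℕ → ℝ) {δ₀ : ℝ} (hδ₀ : 0 < δ₀)
    (ha : ∀ i m n, m ≠ n → δ₀ ≤ |a i m - a i n|) (β : ι → ℕ → ℝ) :
    ∀ᵐ α ∂ν, Equi 1 (fun n i => ⌊a i n * α i + β i n⌋) := by
  classical
  have h1 : ∀ᵐ α ∂ν, ∀ (q : ℕ) (hh : ι → ℤ), 0 < q → hh ≠ 0 →
      Tendsto (fun N : ℕ => (1 / (N : ℂ)) * ∑ n ∈ range N, e (∑ i, ((hh i : ℝ) / q) * (a i n * α i + β i n))) atTop (𝓝 0) := by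
    rw [ae_all_iff]
    intro q
    rw [ae_all_iff]
    intro hh
    by_cases hq : 0 < q
    swap
    · exact ae_of_all _ fun α h' => absurd h' hq
    by_cases h0 : hh = 0
    · exact ae_of_all _ fun α _ h' => absurd h0 h'
    have hqr : (q : ℝ) ≠ 0 := by exact_mod_cast hq.ne'
    have h2 := weyl h a hδ₀ ha β (fun i => (hh i : ℝ) / q) (by
      intro h3
      apply h0
      funext i
      have h4 := congrFun h3 i
      simp only [Pi.zero_apply, div_eq_zero_iff] at h4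
      rcases h4 with h4 | h4
      · exact_mod_cast h4
      · exact absurd h4 hqr)
    filter_upwards [h2] with α hα _ _
    exact hα
  filter_upwards [h1] with α hα
  refine equi_real (fun n i => a i n * α i + β i n) fun q hq _ hh h0 => ?_
  refine (hα q hh hq h0).congr fun N => ?_
  congr 1
  refine sum_congr rfl fun n _ => ?_
  congr 1
  refine sum_congr rfl fun i _ => ?_
  ring

end Pool.Agent.HP25.TW
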