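import Pool.Agent.HP25.TW.F
import Pool.Agent.N327.OR.Freq

/-!
# Bounded primes which divide one coordinate (helper25)
-/

set_option autoImplicit false
set_option linter.unusedSectionVars false
set_option linter.unusedVariables false

namespace Pool.Agent.HP25.TW

open MeasureTheory ProbabilityTheory Finset Filter Topology
open Pool.Agent.N24.RW (ProNull crit_count crit_card)
open Pool.Agent.N327.OR (pick small dens)

variable {ι : Type} [Fintype ι] [DecidableEq ι]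

/-- the residue vectors with `c i = 0` -/
def Om₁ (i : ι) (p : ℕ) : Set (ι → ZMod p) := {c | c i = 0}

theorem om_card₁ (i : ι) {p : ℕ} (hp : p.Prime) :
    1 / (2 * (p : ℝ)) * (p : ℝ) ^ Fintype.card ι ≤ ((Om₁ i p).ncard : ℝ) := by
  have hne : NeZero p := ⟨hp.ne_zero⟩
  have hp2 : (2 : ℝ) ≤ p := by exact_mod_cast hp.two_le
  have hp0 : (0 : ℝ) < p := by linarith
  obtain ⟨f, hf⟩ : ∃ f : (ι → ZMod p) →+ ZMod p, ∀ x, f x = x i := ⟨Pi.evalAddMonoidHom _ i, fun x => rfl⟩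
  have hsurj : Function.Surjective f := by
    intro y
    exact ⟨fun _ => y, by rw [hf]⟩
  have h1 := Pool.Agent.N24.RW.Clo.ncard_preimage f hsurj ({0} : Set (ZMod p))
  rw [Pool.Agent.N24.RW.Clo.card_pi, Nat.card_eq_fintype_card, ZMod.card, Set.ncard_singleton, one_mul] at h1
  have h2 : f ⁻¹' ({0} : Set (ZMod p)) = Om₁ i p := by
    ext x
    show f x = 0 ↔ x i = 0
    rw [hf]
  rw [h2] at h1
  have h3 : ((Om₁ i p).ncard : ℝ) * p = (p : ℝ) ^ Fintype.card ι := by exact_mod_cast h1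
  rw [← h3]
  have h4 : (0 : ℝ) ≤ ((Om₁ i p).ncard : ℝ) := Nat.cast_nonneg _
  rw [show 1 / (2 * (p : ℝ)) * (((Om₁ i p).ncard : ℝ) * p) = ((Om₁ i p).ncard : ℝ) / 2 by field_simp]
  linarith

/-- a bounded set of primes is sufficient for all but a small proportion of the residue vectors -/
theorem small₁ (i : ι) {b : ℤ} (hb : b ≠ 0) (D M : ℕ) (hM : 0 < M) {ε : ℝ} (hε : 0 < ε) :
    ∃ y q : ℕ, 0 < q ∧ q.Coprime M ∧ ∀ B : Set (ι → ℤ),
      (∀ c ∈ B, ¬ ∃ p : ℕ, p.Prime ∧ D < p ∧ p ≤ y ∧ (p : ℤ) ∣ c i ∧ ¬ (p : ℤ) ∣ b) →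
      ((((fun (c : ι → ℤ) (k : ι) => (c k : ZMod q)) '' B).ncard : ℕ) : ℝ) ≤
        ε * (q : ℝ) ^ Fintype.card ι := by
  obtain ⟨P, hP, hPs⟩ := pick (max (max D M) b.natAbs) (-Real.log ε)
  have hPm : ∀ p ∈ P, p.Prime ∧ D < p ∧ M < p ∧ b.natAbs < p := fun p hp =>
    ⟨(hP p hp).1, ((le_max_left _ _).trans (le_max_left _ _)).trans_lt (hP p hp).2,
      ((le_max_right _ _).trans (le_max_left _ _)).trans_lt (hP p hp).2, (le_max_right _ _).trans_lt (hP p hp).2⟩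
  refine ⟨P.sup id, ∏ p ∈ P, p, Finset.prod_pos fun p hp => (hPm p hp).1.pos,
    Nat.Coprime.prod_left fun p hp => ?_, ?_⟩
  · rw [(hPm p hp).1.coprime_iff_not_dvd]
    intro h
    exact absurd (Nat.le_of_dvd hM h) (not_le.2 (hPm p hp).2.2.1)
  intro B hB
  have h1 := crit_count (ι := ι) (Q := fun p => p) P (fun p hp => (hPm p hp).1.one_lt.le)
    (fun p hp p' hp' hne => (Nat.coprime_primes (hPm p hp).1 (hPm p' hp').1).2 hne)
    (fun p => Om₁ i p) B (by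
      intro c hc p hp hmem
      refine hB c hc ⟨p, (hPm p hp).1, (hPm p hp).2.1, Finset.le_sup (f := id) hp, ?_, ?_⟩
      · exact (ZMod.intCast_zmod_eq_zero_iff_dvd _ _).1 hmem
      · intro h
        have h2 : p ∣ b.natAbs := Int.natCast_dvd.1 h
        exact absurd (Nat.le_of_dvd (Int.natAbs_pos.2 hb) h2) (not_le.2 (hPm p hp).2.2.2))
  refine (Nat.cast_le.2 h1).trans ?_
  rw [Nat.cast_prod]
  have h2 : ∀ p ∈ P, (((Om₁ i p)ᶜ.ncard : ℕ) : ℝ) ≤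
      (p : ℝ) ^ Fintype.card ι * Real.exp (-(1 / (2 * (p : ℝ)))) := by
    intro p hp
    rw [crit_card (hPm p hp).1.one_lt.le]
    have h3 := om_card₁ i (hPm p hp).1
    have h4 := Real.add_one_le_exp (-(1 / (2 * (p : ℝ))))
    have h5 : (0 : ℝ) ≤ (p : ℝ) ^ Fintype.card ι := by positivity
    nlinarith [mul_le_mul_of_nonneg_left h4 h5]
  refine (Finset.prod_le_prod (fun p _ => Nat.cast_nonneg _) h2).trans ?_
  rw [Finset.prod_mul_distrib, Finset.prod_pow, ← Real.exp_sum, Finset.sum_neg_distrib,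
    Nat.cast_prod, mul_comm ε]
  refine mul_le_mul_of_nonneg_left ?_ (by positivity)
  rw [← Real.exp_log hε, Real.exp_le_exp]
  linarith

/-- density zero for the bounds given by a function which tends to infinity -/
theorem Equi.dens {M : ℕ} (hM : 0 < M) {c : ℕ → ι → ℤ} (h : Equi M c) {C : ℕ → ℕ → Prop} (D : ℕ) (G : ℕ → ℕ)
    (hC : ∀ n g g', C n g → g ≤ g' → C n g') {R : (ι → ℤ) → ℕ → Prop}
    (hR : ∀ n p, p.Prime → D < p → R (c n) p → C n (G p))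
    (hs : ∀ ε : ℝ, 0 < ε → ∃ y q : ℕ, 0 < q ∧ q.Coprime M ∧ ∀ B : Set (ι → ℤ),
      (∀ c ∈ B, ¬ ∃ p : ℕ, p.Prime ∧ D < p ∧ p ≤ y ∧ R c p) →
      ((((fun (c : ι → ℤ) (k : ι) => (c k : ZMod q)) '' B).ncard : ℕ) : ℝ) ≤ ε * (q : ℝ) ^ Fintype.card ι)
    {f : ℕ → ℕ} (hf : Tendsto f atTop atTop) :
    Tendsto (fun N : ℕ => (({n : ℕ | n < N ∧ ¬ C n (f n)}.ncard : ℕ) : ℝ) / (N : ℝ)) atTop (𝓝 0) := by
  refine Pool.Agent.N327.OR.dens D G hC (fun n p => R (c n) p) hR hf fun ε hε => ?_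
  obtain ⟨y, q, hq, hqM, h1⟩ := hs (ε / 2) (by positivity)
  refine ⟨y, ?_⟩
  obtain ⟨N₀, hN₀⟩ := h q hq hqM {c | ¬ ∃ p : ℕ, p.Prime ∧ D < p ∧ p ≤ y ∧ R c p} (ε / 2) (by positivity) (h1 _ fun c hc => hc)
  filter_upwards [eventually_ge_atTop (N₀ + 1)] with N hN
  have hNr : (0 : ℝ) < N := by exact_mod_cast (by omega : 0 < N)
  rw [div_le_iff₀ hNr]
  refine (hN₀ N (by omega)).trans (le_of_eq ?_)
  ring

/-- the uniform version for one set which meets few residue classes -/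
theorem small_set {q : ℕ} (hq : 0 < q) {D : ℕ} (hqM : q.Coprime (2 * D).factorial) {B : Set (ι → ℤ)} {ε : ℝ} (hε : 0 < ε)
    (hqB : ((((fun (c : ι → ℤ) (i : ι) => (c i : ZMod q)) '' B).ncard : ℕ) : ℝ) ≤ ε / 2 * (q : ℝ) ^ Fintype.card ι)
    {η : ℝ} (hη : 0 < η) :
    ∃ K₀ : ℕ, ∀ K ≥ K₀, ∀ (Ω : Type) [MeasurableSpace Ω] (P : Measure Ω) [IsProbabilityMeasure P] (d : ι → ℕ → Ω → ℤ),
      Free P D η d → ∀ (γ : ι → ℕ → ℤ), (∀ i, ∀ j < K, Smooth D (γ i j)) → ∀ u : ι → ℤ,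
      P.real {ω | sm u γ K d ω ∈ B} ≤ ε := by
  classical
  have : NeZero q := ⟨hq.ne'⟩
  obtain ⟨κ, hκ0, hκ1, hκ⟩ := gap q
  set ρ : ℝ := Real.sqrt (1 - κ * η) with hρ
  have hρ0 : 0 ≤ ρ := Real.sqrt_nonneg _
  have hρ1 : ρ < 1 := by
    rw [hρ]
    have : 1 - κ * η < 1 := by
      have := mul_pos hκ0 hη
      linarith
    calc Real.sqrt (1 - κ * η) < Real.sqrt 1 := by
          rw [Real.sqrt_lt_sqrt_iff_of_pos one_pos]
          exact this
      _ = 1 := Real.sqrt_one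
  have hQ : (0 : ℝ) < (q : ℝ) ^ Fintype.card ι := by
    have : (0 : ℝ) < q := by exact_mod_cast hq
    positivity
  obtain ⟨K₀, hK₀⟩ := exists_pow_lt_of_lt_one (show (0 : ℝ) < ((q : ℝ) ^ Fintype.card ι)⁻¹ by positivity) hρ1
  refine ⟨K₀, fun K hK Ω _ P _ d hd γ hγ u => ?_⟩
  set S := (fun (c : ι → ℤ) (i : ι) => (c i : ZMod q)) '' B with hS
  have h1 : {ω | sm u γ K d ω ∈ B} ⊆ {ω | (fun i => (sm u γ K d ω i : ZMod q)) ∈ S} :=
    fun ω hω => ⟨_, hω, rfl⟩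
  have h2 := prob_le q P (fun ω => (fun i => (sm u γ K d ω i : ZMod q))) (meas_sm hd q u γ K) S (ρ ^ K) (by positivity) (by
    intro h hh
    obtain ⟨i₀, hi₀⟩ : ∃ i, h i ≠ 0 := by
      by_contra hc
      push Not at hc
      exact hh (funext hc)
    simp only [chr_sm]
    rw [integral_const_mul, norm_mul, norm_chr, one_mul]
    have h3 := hd.sums hqM hκ0 hκ K (fun i j => h i * (γ i j : ZMod q)) i₀ (range K) (Subset.refl _) (by
      intro j hj h0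
      exact hi₀ (((hγ i₀ j (mem_range.1 hj)).unit hqM).mul_left_eq_zero.1 h0))
    rw [card_range] at h3
    exact h3)
  rw [probReal_univ] at h2
  refine (measureReal_mono h1).trans (h2.trans ?_)
  have h3 : ρ ^ K ≤ ((q : ℝ) ^ Fintype.card ι)⁻¹ := (pow_le_pow_of_le_one hρ0 hρ1.le hK).trans hK₀.le
  have h4 : (q : ℝ) ^ Fintype.card ι * ρ ^ K ≤ 1 := by
    calc (q : ℝ) ^ Fintype.card ι * ρ ^ K ≤ (q : ℝ) ^ Fintype.card ι * ((q : ℝ) ^ Fintype.card ι)⁻¹ := by gcongr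
      _ = 1 := mul_inv_cancel₀ hQ.ne'
  have h5 : (S.ncard : ℝ) * ((q : ℝ) ^ Fintype.card ι)⁻¹ ≤ ε / 2 := by
    rw [← div_eq_mul_inv, div_le_iff₀ hQ]
    exact hqB
  have h6 : 0 ≤ (S.ncard : ℝ) * ((q : ℝ) ^ Fintype.card ι)⁻¹ := by positivity
  calc (S.ncard : ℝ) * ((q : ℝ) ^ Fintype.card ι)⁻¹ * (1 + (q : ℝ) ^ Fintype.card ι * ρ ^ K)
      ≤ (ε / 2) * (1 + 1) := by
        apply mul_le_mul h5 (by linarith) (by positivity) (by linarith)
    _ = ε := by ring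

end Pool.Agent.HP25.TW
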